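import Pool.Agent.H642.CK.GN

set_option autoImplicit false
set_option linter.unusedSectionVars false
set_option linter.unusedVariables false

/-! Existence of marked systems. -/

namespace Pool.Agent.H642.CK

open Set TopologicalSpace
open Pool.Agent.H642.CH (it it_zero it_one it_add it_neg it_neg' it_cont)

section loc

variable {V : Type} {R : V → V → Prop} {T : V → V → ℕ}

/-- coordinates -/
def oc : Ob V R T → (V × ℕ) ⊕ (V × V × ℕ)
  | .pnd v j => .inl (v, j)
  | .arc a b _ t _ => .inr (a, b, t)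

theorem oc_inj : Function.Injective (oc : Ob V R T → _) := by
  intro o o' h
  cases o <;> cases o' <;> simp only [oc] at h
  · injection h with h
    injection h with h1 h2
    subst h1
    subst h2
    rfl
  · exact absurd h (by simp)
  · exact absurd h (by simp)
  · injection h with h
    injection h with h1 h
    injection h with h2 h3
    subst h1
    subst h2
    subst h3
    rfl

instance [Countable V] : Countable (Ob V R T) := oc_inj.countable

/-- location of the points of the isolated orbits -/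
def loc (x : Ob V R T × ℤ) : V × ℤ :=
  match x with
  | (.pnd v _, m) => (v, m)
  | (.arc a b _ t _, m) => if 2 * m ≤ t then (a, m) else (b, m - t)

theorem loc_ps (x : Ob V R T × ℤ) : ps (loc x).1 (loc x).2 x.1 x.2 := by
  obtain ⟨o, m⟩ := x
  cases o with
  | pnd v j => exact ⟨rfl, rfl⟩
  | arc a b h t ht =>
    unfold loc
    simp only
    split_ifs with h1
    · exact Or.inl ⟨rfl, rfl⟩
    · refine Or.inr ⟨rfl, ?_⟩
      show m = m - t + t
      omega

end loc

theorem loc_fin {R : ℕ → ℕ → Prop} (v : ℕ) (n : ℤ) :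
    {x : Ob ℕ R (fun i j => max i j + 1) × ℤ | ps v n x.1 x.2 ∧ loc x ≠ (v, n)}.Finite := by
  let cc : Ob ℕ R (fun i j => max i j + 1) × ℤ → ((ℕ × ℕ) ⊕ (ℕ × ℕ × ℕ)) × ℤ :=
    fun x => (oc x.1, x.2)
  have hcc : Function.Injective cc := by
    rintro ⟨o, m⟩ ⟨o', m'⟩ h
    have h1 : oc o = oc o' := congrArg Prod.fst h
    have h2 : m = m' := congrArg Prod.snd h
    rw [oc_inj h1, h2]
  let K : ℕ := 2 * n.natAbs + v + 1
  let S : Set (((ℕ × ℕ) ⊕ (ℕ × ℕ × ℕ)) × ℤ) :=
    (Sum.inr '' ((Set.Iic K) ×ˢ ((Set.Iic K) ×ˢ (Set.Iic K)))) ×ˢ (Set.Icc (-(2 * K : ℤ)) (2 * K))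
  have hS : S.Finite :=
    (((finite_Iic K).prod ((finite_Iic K).prod (finite_Iic K))).image _).prod (finite_Icc _ _)
  refine (hS.preimage hcc.injOn).subset ?_
  rintro ⟨o, m⟩ ⟨h1, h2⟩
  cases o with
  | pnd v' j =>
    obtain ⟨rfl, rfl⟩ := h1
    exact (h2 rfl).elim
  | arc a b h t ht =>
    have ht' : max a b + 1 ≤ t := ht
    unfold loc at h2
    simp only at h2
    rcases h1 with ⟨h1, h1'⟩ | ⟨h1, h1'⟩
    · subst h1
      subst h1'
      have h3 : ¬ (2 * m ≤ t) := fun h3 => h2 (by rw [if_pos h3])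
      refine ⟨⟨(a, b, t), ⟨?_, ?_, ?_⟩, rfl⟩, ?_, ?_⟩
      · show a ≤ K
        omega
      · show b ≤ K
        omega
      · show t ≤ K
        omega
      · show -(2 * K : ℤ) ≤ m
        omega
      · show m ≤ (2 * K : ℤ)
        omega
    · subst h1
      subst h1'
      have h3 : 2 * (n + t) ≤ t := by
        by_contra h3
        apply h2
        rw [if_neg h3]
        simp
      refine ⟨⟨(a, b, t), ⟨?_, ?_, ?_⟩, rfl⟩, ?_, ?_⟩
      · show a ≤ K
        omega
      · show b ≤ K
        omega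
      · show t ≤ K
        omega
      · show -(2 * K : ℤ) ≤ n + t
        omega
      · show n + t ≤ (2 * K : ℤ)
        omega

section

variable {Z : Type} [TopologicalSpace Z] [CompactSpace Z] [T2Space Z] [Countable Z] {p : Z}

/-- a partition -/
theorem exists_part (hp : Om p) : ∃ (lam : ℕ × ℤ → Z) (D : ℕ × ℤ → Set Z),
    (∀ i, Nb (D i) (lam i)) ∧ (∀ i j, i ≠ j → ∀ x ∈ D i, x ∉ D j) ∧ ∀ x, x ≠ p → ∃ i, x ∈ D i := by
  have hinf : Infinite {x : Z // ¬ Io x ∧ x ≠ p} := by
    have h1 := hp.inf.sdiff (finite_singleton p)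
    exact h1.to_subtype
  obtain ⟨lam⟩ : Nonempty (ℕ × ℤ ≃ {x : Z // ¬ Io x ∧ x ≠ p}) := nonempty_equiv_of_countable
  obtain ⟨en⟩ : Nonempty (ℕ × ℤ ≃ ℕ) := nonempty_equiv_of_countable
  have h0 : ∀ x : {x : Z // ¬ Io x ∧ x ≠ p}, ∃ B, Nb B x.1 := fun x => hp.nbs x.1 x.2.2 x.2.1
  choose A hA using h0
  have hne : ∀ i j, i ≠ j → (lam i).1 ∉ A (lam j) := fun i j hij h => by
    have := (hA (lam j)).uni _ h (lam i).2.1
    exact hij (lam.injective (Subtype.ext this))
  let D1 : ℕ × ℤ → Set Z := fun i => A (lam i) \ ⋃ j ∈ {j | en j < en i}, A (lam j)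
  have hfin : ∀ i, {j | en j < en i}.Finite := fun i =>
    (finite_Iio (en i)).preimage en.injective.injOn
  have hD1 : ∀ i, Nb (D1 i) (lam i).1 := by
    intro i
    refine ⟨(hA (lam i)).cl.diff ((hfin i).isClopen_biUnion fun j _ => (hA (lam j)).cl),
      ⟨(hA (lam i)).mem, fun h => ?_⟩, (hA (lam i)).lim, fun x hx => (hA (lam i)).uni x hx.1⟩
    simp only [mem_iUnion] at h
    obtain ⟨j, hj, h⟩ := h
    have hj' : en j < en i := hj
    exact hne i j (by rintro rfl; omega) h
  let W : ℕ × ℤ → Set Z := fun i => {x | Io x ∧ (∀ j, x ∉ A (lam j)) ∧ enc x = en i}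
  have hWf : ∀ i, (W i).Finite := fun i => Set.Subsingleton.finite fun x hx x' hx' =>
    enc_inj (hx.2.2.trans hx'.2.2.symm)
  refine ⟨fun i => (lam i).1, fun i => D1 i ∪ W i, fun i => (hD1 i).union (hWf i)
    (fun x hx => hx.1), ?_, ?_⟩
  · rintro i j hij x (hx | hx) (hx' | hx')
    · rcases lt_or_gt_of_ne (fun h => hij (en.injective h)) with h | h
      · exact hx'.2 (mem_biUnion (x := i) h hx.1)
      · exact hx.2 (mem_biUnion (x := j) h hx'.1)
    · exact hx'.2.1 i hx.1
    · exact hx.2.1 j hx'.1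
    · exact hij (en.injective (hx.2.2.symm.trans hx'.2.2))
  · intro x hx
    classical
    by_cases h : ∃ k, x ∈ A (lam (en.symm k))
    · refine ⟨en.symm (Nat.find h), Or.inl ⟨Nat.find_spec h, fun h1 => ?_⟩⟩
      simp only [mem_iUnion] at h1
      obtain ⟨j, hj, h1⟩ := h1
      have hj' : en j < en (en.symm (Nat.find h)) := hj
      rw [en.apply_symm_apply] at hj'
      exact Nat.find_min h hj' (by rwa [en.symm_apply_apply])
    · push Not at h
      have h1 : ∀ j, x ∉ A (lam j) := fun j => by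
        have := h (en j)
        rwa [en.symm_apply_apply] at this
      have hi : Io x := by
        by_contra hcon
        have h2 := h1 (lam.symm ⟨x, hcon, hx⟩)
        rw [lam.apply_symm_apply] at h2
        exact h2 (hA _).mem
      exact ⟨en.symm (enc x), Or.inr ⟨hi, h1, by rw [en.apply_symm_apply]⟩⟩

theorem exists_chart (hp : Om p) (R : ℕ → ℕ → Prop) :
    ∃ Ψ : Pt ℕ R (fun i j => max i j + 1) → Z, Chart Ψ ∧ Ψ .inf = p := by
  obtain ⟨lam, D, hD, hdis, hcov⟩ := exists_part hp
  have e1 : ∀ i, Nonempty ({x : Ob ℕ R (fun i j => max i j + 1) × ℤ // loc x = i} ≃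
      {x : Z // x ∈ D i ∧ x ≠ lam i}) := by
    intro i
    have h1 : Infinite {x : Ob ℕ R (fun i j => max i j + 1) × ℤ // loc x = i} := by
      refine Infinite.of_injective (fun j : ℕ => ⟨(.pnd i.1 j, i.2), rfl⟩) fun j j' h => ?_
      have h1 := congrArg (fun x => x.1.1) h
      simp only at h1
      injection h1
    have h2 : Infinite {x : Z // x ∈ D i ∧ x ≠ lam i} := by
      have : ({x : Z | x ∈ D i ∧ x ≠ lam i}).Infinite := by
        intro hf
        apply (hD i).lim
        have h3 : ({lam i} : Set Z) = D i \ {x : Z | x ∈ D i ∧ x ≠ lam i} := by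
          ext x
          constructor
          · rintro rfl
            exact ⟨(hD i).mem, fun h => h.2 rfl⟩
          · rintro ⟨h3, h4⟩
            by_contra h5
            exact h4 ⟨h3, h5⟩
        unfold Io
        rw [h3]
        exact (hD i).cl.isOpen.sdiff hf.isClosed
      exact this.to_subtype
    exact nonempty_equiv_of_countable
  let β := fun i => (e1 i).some
  let bb : Ob ℕ R (fun i j => max i j + 1) × ℤ → Z := fun x => (β (loc x) ⟨x, rfl⟩).1
  have bb_eq : ∀ i x (h : loc x = i), bb x = (β i ⟨x, h⟩).1 := by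
    rintro i x rfl
    rfl
  have bb_mem : ∀ x, bb x ∈ D (loc x) ∧ bb x ≠ lam (loc x) := fun x => (β (loc x) ⟨x, rfl⟩).2
  have bb_io : ∀ x, Io (bb x) := by
    intro x
    by_contra hcon
    exact (bb_mem x).2 ((hD _).uni _ (bb_mem x).1 hcon)
  have bb_inj : Function.Injective bb := by
    intro x x' h
    have h1 : loc x' = loc x := by
      by_contra hne
      exact hdis _ _ hne _ (bb_mem x').1 (h ▸ (bb_mem x).1)
    rw [bb_eq _ x' h1] at h
    have h2 := (β (loc x)).injective (Subtype.ext h)
    exact congrArg Subtype.val h2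
  have bb_surj : ∀ i z, z ∈ D i → z ≠ lam i → ∃ x, loc x = i ∧ bb x = z := by
    intro i z h1 h2
    refine ⟨((β i).symm ⟨z, h1, h2⟩).1, ((β i).symm ⟨z, h1, h2⟩).2, ?_⟩
    rw [bb_eq i _ ((β i).symm ⟨z, h1, h2⟩).2]
    show (β i ((β i).symm ⟨z, h1, h2⟩)).1 = z
    rw [(β i).apply_symm_apply]
  have hpD : ∀ i, p ∉ D i := fun i h => by
    have h1 := (hD i).uni p h hp.lim
    have h2 := hD i
    rw [← h1] at h2
    exact hp.no h2
  have lam_inj : Function.Injective lam := by
    intro i j h
    by_contra hne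
    exact hdis i j hne _ (hD i).mem (h ▸ (hD j).mem)
  let Ψ : Pt ℕ R (fun i j => max i j + 1) → Z := fun q => match q with
    | .inf => p
    | .lim v k => lam (v, k)
    | .iso o m => bb (o, m)
  have hb : Function.Bijective Ψ := by
    constructor
    · intro q q' h
      cases q with
      | inf =>
        cases q' with
        | inf => rfl
        | lim v k => exact (hpD _ (by
            have h1 : p = lam (v, k) := h
            rw [h1]
            exact (hD _).mem)).elim
        | iso o m => exact (hpD _ (by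
            have h1 : p = bb (o, m) := h
            rw [h1]
            exact (bb_mem _).1)).elim
      | lim v k =>
        cases q' with
        | inf => exact (hpD _ (by
            have h1 : lam (v, k) = p := h
            rw [← h1]
            exact (hD _).mem)).elim
        | lim v' k' =>
          have h1 := lam_inj (show lam (v, k) = lam (v', k') from h)
          injection h1 with h2 h3
          rw [h2, h3]
        | iso o m =>
          have h1 : lam (v, k) = bb (o, m) := h
          have h2 := bb_io (o, m)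
          rw [← h1] at h2
          exact ((hD _).lim h2).elim
      | iso o m =>
        cases q' with
        | inf => exact (hpD _ (by
            have h1 : bb (o, m) = p := h
            rw [← h1]
            exact (bb_mem _).1)).elim
        | lim v k =>
          have h1 : bb (o, m) = lam (v, k) := h
          have h2 := bb_io (o, m)
          rw [h1] at h2
          exact ((hD _).lim h2).elim
        | iso o' m' =>
          have h1 := bb_inj (show bb (o, m) = bb (o', m') from h)
          injection h1 with h2 h3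
          rw [h2, h3]
    · intro z
      by_cases hz : z = p
      · exact ⟨.inf, hz.symm⟩
      · obtain ⟨⟨v, k⟩, hi⟩ := hcov z hz
        by_cases hz2 : z = lam (v, k)
        · exact ⟨.lim v k, hz2.symm⟩
        · obtain ⟨⟨o, m⟩, -, h⟩ := bb_surj _ z hi hz2
          exact ⟨.iso o m, h⟩
  refine ⟨Ψ, ⟨hb, fun o n => bb_io (o, n), fun v n => ?_⟩, rfl⟩
  have hF : (bb '' {x | ps v n x.1 x.2 ∧ loc x ≠ (v, n)}).Finite := (loc_fin v n).image _
  have hFi : ∀ z ∈ bb '' {x | ps v n x.1 x.2 ∧ loc x ≠ (v, n)}, Io z := by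
    rintro _ ⟨x, -, rfl⟩
    exact bb_io x
  have h1 := (hD (v, n)).union hF hFi
  have h2 : Ψ '' {q | inN v n q} = D (v, n) ∪ bb '' {x | ps v n x.1 x.2 ∧ loc x ≠ (v, n)} := by
    ext z
    constructor
    · rintro ⟨q, hq, rfl⟩
      cases q with
      | inf => exact hq.elim
      | lim v' k =>
        obtain ⟨rfl, rfl⟩ := hq
        exact Or.inl (hD _).mem
      | iso o m =>
        by_cases hl : loc (o, m) = (v, n)
        · left
          have := (bb_mem (o, m)).1
          rwa [hl] at this
        · right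
          exact ⟨(o, m), ⟨hq, hl⟩, rfl⟩
    · rintro (h | ⟨⟨o, m⟩, ⟨h, -⟩, rfl⟩)
      · by_cases hz : z = lam (v, n)
        · exact ⟨.lim v n, ⟨rfl, rfl⟩, hz.symm⟩
        · obtain ⟨⟨o, m⟩, h3, h4⟩ := bb_surj _ z h hz
          refine ⟨.iso o m, ?_, h4⟩
          have h5 := loc_ps (o, m)
          rw [h3] at h5
          exact h5
      · exact ⟨.iso o m, h, rfl⟩
  rw [h2]
  exact h1

/-- existence of marked systems -/
theorem exists_mk (hp : Om p) (R : ℕ → ℕ → Prop) :
    ∃ f : Z ≃ₜ Z, Nonempty (Mk p f ℕ R (fun i j => max i j + 1)) := by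
  obtain ⟨Ψ, hΨ, hΨp⟩ := exists_chart hp R
  have hs : Function.Bijective (sh 1 : Pt ℕ R (fun i j => max i j + 1) → _) :=
    ⟨fun a b h => by rw [← sh_neg 1 a, h, sh_neg], fun a => ⟨sh (-1) a, sh_neg' 1 a⟩⟩
  have hΨ' : Chart (fun q => Ψ (sh 1 q)) := by
    refine ⟨hΨ.bij.comp hs, fun o n => hΨ.io o (n + 1), fun v n => ?_⟩
    have h1 := hΨ.nb v (n + 1)
    have h2 : (fun q => Ψ (sh 1 q)) '' {q | inN v n q} = Ψ '' {q | inN v (n + 1) q} := by
      ext z
      constructor
      · rintro ⟨q, hq, rfl⟩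
        refine ⟨sh 1 q, ?_, rfl⟩
        show inN v (n + 1) (sh 1 q)
        rw [inN_sh, add_sub_cancel_right]
        exact hq
      · rintro ⟨q, hq, rfl⟩
        refine ⟨sh (-1) q, ?_, ?_⟩
        · show inN v n (sh (-1) q)
          rw [inN_sh, sub_neg_eq_add]
          exact hq
        · show Ψ (sh 1 (sh (-1) q)) = Ψ q
          rw [sh_neg']
    rw [h2]
    exact h1
  obtain ⟨e, he⟩ := hΨ.homeo hΨ'
  exact ⟨e, ⟨⟨Ψ, hΨ, he, hΨp⟩⟩⟩

end

end Pool.Agent.H642.CK
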