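import Pool.Agent.H642.CK.RB

set_option autoImplicit false
set_option linter.unusedSectionVars false
set_option linter.unusedVariables false

/-! Choices of disjoint neighbourhoods give markings. -/

namespace Pool.Agent.H642.CK

open Set TopologicalSpace
open Pool.Agent.H642.CH (it it_zero it_one it_add it_neg it_neg' it_cont)

section

variable {Z : Type} [TopologicalSpace Z] [CompactSpace Z] [T2Space Z] [Countable Z]
  {p : Z} {f : Z ≃ₜ Z} {y : ℕ → Z} {R : ℕ → ℕ → Prop} {N : ℕ → Set Z} {τ : ℕ → ℕ}

/-- the pendants -/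
def Pn (f : Z ≃ₜ Z) (N : ℕ → Set Z) (i : ℕ) : Set Z :=
  {z | z ∈ N i ∧ Io z ∧ ∀ i', i' ≠ i → ∀ t : ℤ, it f t z ∉ N i'}

theorem pn_eq (F : Fl f y R N τ) (i : ℕ) : Nonempty (ℕ ≃ Pn f N i) := by
  have h1 : (Pn f N i).Infinite := F.pnd i
  have : Infinite (Pn f N i) := h1.to_subtype
  exact nonempty_equiv_of_countable

theorem r_ne (Y : Reps p f y R) {i j : ℕ} (h : R i j) : i ≠ j := by
  rintro rfl
  exact Y.irr _ h

/-- base points of the isolated orbits -/
noncomputable def bo (F : Fl f y R N τ) (Y : Reps p f y R) : Ob ℕ R (fun i j => τ (max i j)) → Z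
  | .pnd v j => ((pn_eq F v).some j).1
  | .arc v w h t ht => (F.one v w (r_ne Y h) h t ht).choose

/-- the chart -/
noncomputable def chart (F : Fl f y R N τ) (Y : Reps p f y R) :
    Pt ℕ R (fun i j => τ (max i j)) → Z
  | .inf => p
  | .lim v k => it f k (y v)
  | .iso o n => it f n (bo F Y o)

variable (F : Fl f y R N τ) (Y : Reps p f y R)

theorem bo_io (o : Ob ℕ R (fun i j => τ (max i j))) : Io (bo F Y o) := by
  cases o with
  | pnd v j => exact ((pn_eq F v).some j).2.2.1
  | arc v w h t ht =>
    obtain ⟨h1, h2⟩ := (F.one v w (r_ne Y h) h t ht).choose_spec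
    exact Y.io (r_ne Y h) (F.nb v) (F.nb w) h1 h2

theorem bo_ps (o : Ob ℕ R (fun i j => τ (max i j))) (v : ℕ) (k : ℤ) :
    it f k (bo F Y o) ∈ N v ↔ ps v 0 o k := by
  have hio := bo_io F Y o
  cases o with
  | pnd v' j =>
    have h1 : bo F Y (.pnd v' j) ∈ Pn f N v' := ((pn_eq F v').some j).2
    constructor
    · intro h
      by_cases hv : v = v'
      · subst hv
        refine ⟨rfl, ?_⟩
        by_contra hk
        exact F.slf v _ h1.1 hio k hk h
      · exact (h1.2.2 v hv k h).elim
    · rintro ⟨rfl, rfl⟩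
      rw [it_zero]
      exact h1.1
  | arc a b h t ht =>
    obtain ⟨h1, h2⟩ := (F.one a b (r_ne Y h) h t ht).choose_spec
    change bo F Y (.arc a b h t ht) ∈ N a at h1
    change it f t (bo F Y (.arc a b h t ht)) ∈ N b at h2
    constructor
    · intro h3
      by_cases hv : a = v
      · subst hv
        left
        refine ⟨rfl, ?_⟩
        by_contra hk
        exact F.slf a _ h1 hio k hk h3
      · by_cases hb : b = v
        · subst hb
          right
          refine ⟨rfl, ?_⟩
          by_contra hk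
          refine F.slf b _ h2 ((io_it f _ _).2 hio) (k - t) (by omega) ?_
          rw [it_it, sub_add_cancel]
          exact h3
        · exact (F.tri a b v (r_ne Y h) hv hb _ h1 t h2 k h3).elim
    · rintro (⟨rfl, rfl⟩ | ⟨rfl, rfl⟩)
      · rw [it_zero]
        exact h1
      · rw [zero_add]
        exact h2

theorem chart_it (q : Pt ℕ R (fun i j => τ (max i j))) (hp : Om p) (k : ℤ) :
    it f k (chart F Y q) = chart F Y (sh k q) := by
  cases q with
  | inf => exact hp.fixit f k
  | lim v n =>
    show it f k (it f n (y v)) = it f (n + k) (y v)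
    rw [it_it, add_comm]
  | iso o n =>
    show it f k (it f n (bo F Y o)) = it f (n + k) (bo F Y o)
    rw [it_it, add_comm]

theorem chart_key (hp : Om p) (G : Good p f) (q : Pt ℕ R (fun i j => τ (max i j))) (v : ℕ) (n : ℤ) :
    it f (-n) (chart F Y q) ∈ N v ↔ inN v n q := by
  rw [chart_it F Y q hp]
  cases q with
  | inf =>
    constructor
    · intro h
      exact (Y.ne v ((F.nb v).uni p h hp.lim).symm).elim
    · intro h
      exact h.elim
  | lim v' k =>
    show it f (k + -n) (y v') ∈ N v ↔ v' = v ∧ k = n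
    constructor
    · intro h
      have h1 := (F.nb v).uni _ h fun h2 => Y.lim v' ((io_it f _ _).1 h2)
      have h2 : v' = v := by
        by_contra hne
        exact Y.sep v' v hne _ h1
      subst h2
      refine ⟨rfl, ?_⟩
      by_contra hk
      exact G.per _ (Y.lim v') (Y.ne v') (k + -n) (by omega) h1
    · rintro ⟨rfl, rfl⟩
      rw [add_neg_cancel, it_zero]
      exact (F.nb _).mem
  | iso o m =>
    show it f (m + -n) (bo F Y o) ∈ N v ↔ ps v n o m
    rw [bo_ps, ps_sh, zero_sub, neg_neg]

theorem chart_io (o : Ob ℕ R (fun i j => τ (max i j))) (n : ℤ) : Io (chart F Y (.iso o n)) :=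
  (io_it f n _).2 (bo_io F Y o)

theorem ps_own (o : Ob ℕ R (fun i j => τ (max i j))) (m : ℤ) : ∃ v, ps v m o m := by
  cases o with
  | pnd v j => exact ⟨v, rfl, rfl⟩
  | arc a b h t ht => exact ⟨a, Or.inl ⟨rfl, rfl⟩⟩

theorem chart_inj (hp : Om p) (G : Good p f) : Function.Injective (chart F Y) := by
  intro q q' hqq
  have hk : ∀ v n, inN v n q ↔ inN v n q' := fun v n => by
    rw [← chart_key F Y hp G q v n, ← chart_key F Y hp G q' v n, hqq]
  cases q with
  | inf =>
    cases q' with
    | inf => rfl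
    | lim v k => exact ((hk v k).2 ⟨rfl, rfl⟩).elim
    | iso o m =>
      obtain ⟨v, hv⟩ := ps_own o m
      exact ((hk v m).2 hv).elim
  | lim v k =>
    cases q' with
    | inf => exact ((hk v k).1 ⟨rfl, rfl⟩).elim
    | lim v' k' =>
      obtain ⟨rfl, rfl⟩ := (hk v k).1 ⟨rfl, rfl⟩
      rfl
    | iso o m =>
      have h1 := chart_io F Y o m
      rw [← hqq] at h1
      exact (Y.lim v ((io_it f k _).1 h1)).elim
  | iso o m =>
    cases q' with
    | inf =>
      obtain ⟨v, hv⟩ := ps_own o m
      exact ((hk v m).1 hv).elim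
    | lim v k =>
      have h1 := chart_io F Y o m
      rw [hqq] at h1
      exact (Y.lim v ((io_it f k _).1 h1)).elim
    | iso o' m' =>
      cases o with
      | pnd v j =>
        cases o' with
        | pnd v' j' =>
          obtain ⟨rfl, rfl⟩ := (hk v m).1 ⟨rfl, rfl⟩
          have h1 : bo F Y (.pnd v' j) = bo F Y (.pnd v' j') := it_inj f m' hqq
          have h2 := (pn_eq F v').some.injective (Subtype.ext h1)
          subst h2
          rfl
        | arc a b h t ht =>
          obtain ⟨rfl, -⟩ := (hk a m').2 (Or.inl ⟨rfl, rfl⟩)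
          obtain ⟨rfl, -⟩ := (hk b (m' - t)).2 (Or.inr ⟨rfl, by omega⟩)
          exact (Y.irr _ h).elim
      | arc a b h t ht =>
        cases o' with
        | pnd v' j' =>
          obtain ⟨rfl, -⟩ := (hk a m).1 (Or.inl ⟨rfl, rfl⟩)
          obtain ⟨rfl, -⟩ := (hk b (m - t)).1 (Or.inr ⟨rfl, by omega⟩)
          exact (Y.irr _ h).elim
        | arc a' b' h' t' ht' =>
          have e1 := (hk a m).1 (Or.inl ⟨rfl, rfl⟩)
          have e2 := (hk b (m - t)).1 (Or.inr ⟨rfl, by omega⟩)
          rcases e1 with ⟨rfl, rfl⟩ | ⟨rfl, e1⟩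
          · rcases e2 with ⟨rfl, -⟩ | ⟨rfl, e2⟩
            · exact (Y.irr _ h).elim
            · have : t = t' := by omega
              subst this
              rfl
          · rcases e2 with ⟨rfl, e2⟩ | ⟨rfl, e2⟩
            · have h3 : 1 ≤ τ (max b' a') := F.pos _
              have h4 : τ (max b' a') ≤ t := ht
              omega
            · exact (Y.irr _ h).elim

theorem chart_surj (hp : Om p) (G : Good p f) : Function.Surjective (chart F Y) := by
  intro x
  by_cases hx : Io x
  · obtain ⟨i, s, h1⟩ := F.abs x hx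
    by_cases h2 : ∃ i', i' ≠ i ∧ ∃ t : ℤ, it f t x ∈ N i'
    · obtain ⟨i', hne, s', h2⟩ := h2
      have key : ∀ (i i' : ℕ) (s s' : ℤ), i' ≠ i → it f s x ∈ N i → it f s' x ∈ N i' → s ≤ s' →
          ∃ q, chart F Y q = x := by
        intro i i' s s' hne h1 h2 hs
        have h3 : it f (s' - s) (it f s x) ∈ N i' := by
          rw [it_it, sub_add_cancel]
          exact h2
        obtain ⟨t, ht⟩ := Int.eq_ofNat_of_zero_le (a := s' - s) (by omega)
        rw [ht] at h3
        have h4 := F.low i i' hne.symm _ h1 t h3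
        rw [Nat.abs_cast] at h4
        have h5 : τ (max i i') ≤ t := by exact_mod_cast h4
        have h6 : R i i' := by
          by_contra hcon
          exact F.non i i' hne.symm hcon t _ h1 h3
        refine ⟨.iso (.arc i i' h6 t h5) (-s), ?_⟩
        show it f (-s) (bo F Y (.arc i i' h6 t h5)) = x
        obtain ⟨k1, k2⟩ := (F.one i i' (r_ne Y h6) h6 t h5).choose_spec
        have h7 : bo F Y (.arc i i' h6 t h5) = it f s x :=
          F.uni i i' hne.symm t h5 _ k1 _ h1 k2 h3
        rw [h7, it_neg]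
      rcases le_total s s' with h | h
      · exact key i i' s s' hne h1 h2 h
      · exact key i' i s' s hne.symm h2 h1 h
    · push Not at h2
      have h3 : it f s x ∈ Pn f N i := by
        refine ⟨h1, (io_it f s x).2 hx, fun i' hne t h4 => ?_⟩
        rw [it_it] at h4
        exact h2 i' hne _ h4
      obtain ⟨j, hj⟩ := (pn_eq F i).some.surjective ⟨_, h3⟩
      refine ⟨.iso (.pnd i j) (-s), ?_⟩
      show it f (-s) (bo F Y (.pnd i j)) = x
      have h4 : bo F Y (.pnd i j) = it f s x := congrArg Subtype.val hj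
      rw [h4, it_neg]
  · by_cases hxp : x = p
    · exact ⟨.inf, hxp.symm⟩
    · obtain ⟨i, k, h⟩ := Y.cov x hx hxp
      exact ⟨.lim i k, h.symm⟩

theorem mk_of_fl (hp : Om p) (G : Good p f) (F : Fl f y R N τ) (Y : Reps p f y R) :
    Nonempty (Mk p f ℕ R (fun i j => τ (max i j))) := by
  have hb : Function.Bijective (chart F Y) := ⟨chart_inj F Y hp G, chart_surj F Y hp G⟩
  refine ⟨⟨chart F Y, ⟨hb, chart_io F Y, fun v n => ?_⟩, fun q => ?_, rfl⟩⟩
  · have h1 := (F.nb v).shift f n
    have h2 : {x | it f (-n) x ∈ N v} = chart F Y '' {q | inN v n q} := by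
      ext x
      obtain ⟨q, rfl⟩ := hb.2 x
      rw [hb.1.mem_set_image]
      exact chart_key F Y hp G q v n
    rw [h2] at h1
    exact h1
  · rw [← it_one f, chart_it F Y q hp]

end

end Pool.Agent.H642.CK
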