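import Pool.Agent.H642.CK.EX
import Pool.Agent.H642.CK.RD

set_option autoImplicit false
set_option linter.unusedSectionVars false
set_option linter.unusedVariables false

/-! Faithful completeness of conjugacy for the compact spaces with one point of rank two. -/

namespace Pool.Agent.H642.CK

open Set TopologicalSpace
open Pool.Agent.H642.CH (it it_zero it_one it_add it_neg it_neg' it_cont)
open Pool.Agent.W889.VC (BP Faithful BIso BinStr IsGraph Bip target_Bip)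
open Pool.Agent.W889.SD (dc measurable_dc dc_iso dc_iso' faithful_interp)

attribute [local instance] hm

/-- topological conjugacy -/
def Cj {Z : Type} [TopologicalSpace Z] (f g : Z ≃ₜ Z) : Prop :=
  ∃ h : Z ≃ₜ Z, ∀ x, h (f x) = g (h x)

theorem Cj.symm {Z : Type} [TopologicalSpace Z] {f g : Z ≃ₜ Z} (h : Cj f g) : Cj g f := by
  obtain ⟨h, hh⟩ := h
  refine ⟨h.symm, fun x => ?_⟩
  rw [h.symm_apply_eq, hh, h.apply_symm_apply]

/-- the moved points are dense -/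
def Dn {Z : Type} [TopologicalSpace Z] (f : Z ≃ₜ Z) : Prop :=
  ∀ U : Set Z, IsOpen U → U.Nonempty → ∃ x ∈ U, f x ≠ x

section

variable {Z : Type} [TopologicalSpace Z] [CompactSpace Z] [T2Space Z] [Countable Z]
  {p : Z} {f g : Z ≃ₜ Z}

theorem Good.finD (G : Good p f) {D A : Set Z} {y : Z} (hA : Nb A y) (hD : D.Finite)
    (hi : ∀ d ∈ D, Io d) : {t : ℤ | ∃ d ∈ D, it f t d ∈ A}.Finite := by
  have : {t : ℤ | ∃ d ∈ D, it f t d ∈ A} = ⋃ d ∈ D, {t : ℤ | it f t d ∈ A} := by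
    ext t
    simp
  rw [this]
  exact hD.biUnion fun d hd => G.fin' hA (hi d hd)

theorem Good.rel_congr (G : Good p f) {A A' B B' : Set Z} {y y' : Z} (hA : Nb A y)
    (hA' : Nb A' y) (hB : Nb B y') (hB' : Nb B' y') (h : Rel f A B) : Rel f A' B' := by
  have f1 := G.finD hB (hA.diff hA') fun d hd => hA.diff_io hA' hd.1 hd.2
  have f3 := (G.finD hA (hB.diff hB') fun d hd => hB.diff_io hB' hd.1 hd.2).preimage
    (f := fun t => -t) neg_injective.injOn
  have f4 := (f1.union f3).preimage (f := fun t : ℕ => (t : ℤ)) Nat.cast_injective.injOn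
  refine (h.sdiff f4).mono ?_
  rintro t ⟨⟨z, h1, h2, h3⟩, h4⟩
  refine ⟨z, ?_, h2, ?_⟩
  · by_contra h5
    exact h4 (Or.inl ⟨z, ⟨h1, h5⟩, h3⟩)
  · by_contra h5
    refine h4 (Or.inr ⟨_, ⟨h3, h5⟩, ?_⟩)
    rw [it_neg]
    exact h1

theorem exists_reps (hp : Om p) (G : Good p f) (θ : ℕ ≃ {u // PV p f u}) {R : ℕ → ℕ → Prop}
    (hR : ∀ i j, R i j ↔ Ad f (θ i) (θ j)) : ∃ y : ℕ → Z, Reps p f y R := by
  have h0 : ∀ i, ∃ y, enc y = (θ i).1 ∧ ¬ Io y ∧ y ≠ p ∧ ∀ k : ℤ, (θ i).1 ≤ enc (it f k y) :=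
    fun i => (θ i).2
  choose y h1 h2 h3 h4 using h0
  have hsep : ∀ i j, i ≠ j → ∀ k : ℤ, it f k (y i) ≠ y j := by
    intro i j hij k hk
    have e1 := h4 i k
    rw [hk, h1] at e1
    have e2 := h4 j (-k)
    rw [← hk, it_neg, h1] at e2
    exact hij (θ.injective (Subtype.ext (le_antisymm e1 e2)))
  refine ⟨y, h2, h3, hsep, ?_, ?_, ?_⟩
  · intro x hx hxp
    classical
    have hex : ∃ u, ∃ k : ℤ, enc (it f k x) = u := ⟨_, 0, rfl⟩
    obtain ⟨k, hk⟩ := Nat.find_spec hex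
    have hpv : PV p f (Nat.find hex) := by
      refine ⟨it f k x, hk, fun h => hx ((io_it f k x).1 h), fun h => ?_, fun j => ?_⟩
      · apply hxp
        rw [it_eq, hp.fixit] at h
        exact h
      · rw [it_it]
        exact Nat.find_min' hex ⟨_, rfl⟩
    obtain ⟨i, hi⟩ := θ.surjective ⟨_, hpv⟩
    refine ⟨i, -k, ?_⟩
    rw [← it_eq]
    apply enc_inj
    rw [hk, h1, hi]
  · intro i j hij A B hA hB
    rw [hR]
    constructor
    · intro h
      exact ⟨y i, y j, h1 i, h1 j, hsep i j hij, ⟨A, hA.cl⟩, ⟨B, hB.cl⟩, hA, hB, h⟩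
    · rintro ⟨z, z', e1, e2, -, A', B', hA', hB', h⟩
      have e3 : z = y i := enc_inj (e1.trans (h1 i).symm)
      have e4 : z' = y j := enc_inj (e2.trans (h1 j).symm)
      subst e3
      subst e4
      exact G.rel_congr hA' hA hB' hB h
  · intro i h
    obtain ⟨z, z', e1, e2, e3, -⟩ := (hR i i).1 h
    apply e3 0
    rw [it_zero]
    exact enc_inj (e1.trans e2.symm)

theorem ad_symm (G : Good p f) {u v : ℕ} (h : Ad f u v) : Ad f v u := by
  obtain ⟨y, y', h1, h2, h3, A, B, hA, hB, hr⟩ := h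
  refine ⟨y', y, h2, h1, fun k hk => h3 (-k) ?_, B, A, hB, hA, G.sym A B y y' hA hB h3 hr⟩
  rw [← hk, it_neg]

theorem exists_mk2 (hp : Om p) (F : Good p f) (G : Good p g)
    (π : {u // PV p f u} ≃ {u // PV p g u}) (h : ∀ u v : {u // PV p f u},
      Ad f u v ↔ Ad g (π u) (π v)) : ∃ (R : ℕ → ℕ → Prop) (T : ℕ → ℕ → ℕ),
      Nonempty (Mk p f ℕ R T) ∧ Nonempty (Mk p g ℕ R T) ∧ (∀ v, ¬ R v v) ∧
        ∀ v w, R v w → R w v := by
  have hinf : ({u | PV p f u}).Infinite := by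
    intro hf
    obtain ⟨N, hN⟩ := hf.bddAbove
    obtain ⟨u, hu, hu'⟩ := F.inf (N + 1)
    have := hN hu'
    omega
  have : Infinite {u // PV p f u} := hinf.to_subtype
  obtain ⟨θ⟩ : Nonempty (ℕ ≃ {u // PV p f u}) := nonempty_equiv_of_countable
  obtain ⟨y, Y⟩ := exists_reps hp F θ (R := fun i j => Ad f (θ i) (θ j)) fun i j => Iff.rfl
  obtain ⟨y', Y'⟩ := exists_reps hp G (θ.trans π) (R := fun i j => Ad f (θ i) (θ j))
    fun i j => h _ _
  obtain ⟨N, N', τ, H, H'⟩ := exists_fl hp F G Y Y'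
  exact ⟨_, _, mk_of_fl hp F H Y, mk_of_fl hp G H' Y', Y.irr, fun v w => ad_symm F⟩

theorem good_mk (hp : Om p) (F : Good p f) : ∃ (R : ℕ → ℕ → Prop) (T : ℕ → ℕ → ℕ),
      Nonempty (Mk p f ℕ R T) ∧ (∀ v, ¬ R v v) ∧ ∀ v w, R v w → R w v := by
  obtain ⟨R, T, h1, -, h2⟩ := exists_mk2 hp F F (Equiv.refl _) fun u v => Iff.rfl
  exact ⟨R, T, h1, h2⟩

theorem good_cj (hp : Om p) (h : Cj f g) (F : Good p f) : Good p g := by
  obtain ⟨h, hh⟩ := h
  obtain ⟨R, T, ⟨M⟩, h1, h2⟩ := good_mk hp F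
  exact good_of_mk (M.transport hp h hh) hp h1 h2

/-- the decoding -/
noncomputable def dec (p : Z) (f : Z ≃ₜ Z) : BinStr :=
  dc (fun f u => PV p f u) (fun f u v => Ad f u v) f

theorem dec_iff (hp : Om p) (F : Good p f) (G : Good p g) :
    Cj f g ↔ BIso (dec p f) (dec p g) := by
  unfold dec
  rw [dc_iso F.inf G.inf]
  constructor
  · rintro ⟨h, hh⟩
    obtain ⟨R, T, ⟨M⟩, h1, h2⟩ := good_mk hp F
    obtain ⟨θ, hθ⟩ := graph_of_mk M hp
    obtain ⟨θ', hθ'⟩ := graph_of_mk (M.transport hp h hh) hp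
    refine ⟨θ.symm.trans θ', fun u v => ?_⟩
    have h1 := hθ (θ.symm u) (θ.symm v)
    have h2 := hθ' (θ.symm u) (θ.symm v)
    rw [θ.apply_symm_apply, θ.apply_symm_apply] at h1
    show Ad f u v ↔ Ad g (θ' (θ.symm u)) (θ' (θ.symm v))
    rw [h1, h2]
  · rintro ⟨π, hπ⟩
    obtain ⟨R, T, ⟨M⟩, ⟨N⟩, -⟩ := exists_mk2 hp F G π hπ
    exact M.conj N

theorem dec_surj (hp : Om p) (x : BinStr) (hx : IsGraph x) :
    ∃ f : Z ≃ₜ Z, Good p f ∧ BIso (dec p f) x := by
  obtain ⟨f, ⟨M⟩⟩ := exists_mk hp (fun i j => x i j = true)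
  have G := good_of_mk M hp (fun v h => by
    rw [hx.irrefl] at h
    exact Bool.noConfusion h) (fun v w h => hx.symm _ _ h)
  obtain ⟨θ, hθ⟩ := graph_of_mk M hp
  refine ⟨f, G, ?_⟩
  unfold dec
  refine dc_iso' G.inf θ fun m n => ?_
  rw [hθ]
  constructor
  · intro h
    refine ⟨?_, h⟩
    rintro rfl
    rw [hx.irrefl] at h
    exact Bool.noConfusion h
  · exact fun h => h.2

theorem good_dn (hp : Om p) (G : Good p f) : Dn f := by
  intro U hU hne
  have h1 : ∃ x ∈ U, x ≠ p := by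
    by_contra hcon
    push Not at hcon
    apply hp.lim
    obtain ⟨x, hx⟩ := hne
    have : U = {p} := by
      ext z
      exact ⟨fun h => hcon z h, fun h => by
        rw [mem_singleton_iff] at h
        rw [h, ← hcon x hx]
        exact hx⟩
    unfold Io
    rw [← this]
    exact hU
  obtain ⟨x, hx, hxp⟩ := h1
  refine ⟨x, hx, ?_⟩
  rw [← it_one f]
  by_cases hi : Io x
  · exact G.nper hp hi one_ne_zero
  · exact G.per x hi hxp 1 one_ne_zero

theorem faithful_om [SecondCountableTopology Z] [TotallyDisconnectedSpace Z] (hp : Om p) :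
    Faithful (Cj (Z := Z)) Dn :=
  faithful_interp (target_Bip.faithful.mono (K' := IsGraph) fun y hy => hy.1)
    (fun _ _ h => h.symm) (bp_good p) (measurable_dc (bp_pv p) bp_ad)
    (fun _ _ h G => good_cj hp h G) (fun _ _ Gf Gg => dec_iff hp Gf Gg)
    (dec_surj hp) (fun _ G => good_dn hp G)

end

end Pool.Agent.H642.CK
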