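import Pool.Agent.H642.CK.Gd

set_option autoImplicit false
set_option linter.unusedSectionVars false
set_option linter.unusedVariables false

/-! Marked systems are good. -/

namespace Pool.Agent.H642.CK

open Set TopologicalSpace
open Pool.Agent.H642.CH (it it_zero it_one it_add it_neg it_neg' it_cont)

section

variable {V : Type} {R : V → V → Prop} {T : V → V → ℕ}

theorem ps_fin (v : V) (n m : ℤ) (o : Ob V R T) : {k : ℤ | ps v n o (m + k)}.Finite := by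
  cases o with
  | pnd v' j =>
    refine (finite_singleton (n - m)).subset fun k hk => ?_
    have h1 := hk.2
    show k = n - m
    omega
  | arc a b h t ht =>
    refine ((finite_singleton (n + t - m)).insert (n - m)).subset fun k hk => ?_
    rcases hk with ⟨-, h1⟩ | ⟨-, h1⟩
    · left
      omega
    · right
      show k = n + t - m
      omega

theorem ps_self (hirr : ∀ v, ¬ R v v) {v : V} {n m t : ℤ} {o : Ob V R T} (h1 : ps v n o m)
    (h2 : ps v n o (m + t)) : t = 0 := by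
  cases o with
  | pnd v' j =>
    have e1 := h1.2
    have e2 := h2.2
    omega
  | arc a b h t ht =>
    rcases h1 with ⟨rfl, e1⟩ | ⟨rfl, e1⟩ <;> rcases h2 with ⟨e3, e2⟩ | ⟨e3, e2⟩
    · omega
    · subst e3
      exact (hirr _ h).elim
    · subst e3
      exact (hirr _ h).elim
    · omega

theorem ps_one {v w : V} (hne : v ≠ w) {n m k t : ℤ} (ht : m - n < t) {o : Ob V R T}
    (h1 : ps v n o k) (h2 : ps w m o (k + t)) :
    k = n ∧ ∃ (hR : R v w) (t0 : ℕ) (h0 : T v w ≤ t0), (t0 : ℤ) = t + n - m ∧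
      o = .arc v w hR t0 h0 := by
  cases o with
  | pnd v' j => exact (hne (h1.1.symm.trans h2.1)).elim
  | arc a b h t0 h0 =>
    rcases h1 with ⟨rfl, e1⟩ | ⟨rfl, e1⟩ <;> rcases h2 with ⟨e3, e2⟩ | ⟨e3, e2⟩
    · exact (hne e3).elim
    · subst e3
      exact ⟨e1, h, t0, h0, by omega, rfl⟩
    · omega
    · exact (hne e3).elim

theorem ps_three {v w u : V} (h1 : v ≠ w) (h2 : v ≠ u) (h3 : w ≠ u) {n n' n'' m m' m'' : ℤ}
    {o : Ob V R T} (k1 : ps v n o m) (k2 : ps w n' o m') (k3 : ps u n'' o m'') : False := by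
  cases o with
  | pnd v' j => exact h1 (k1.1.symm.trans k2.1)
  | arc a b h t0 h0 =>
    rcases k1 with ⟨e1, -⟩ | ⟨e1, -⟩ <;> rcases k2 with ⟨e2, -⟩ | ⟨e2, -⟩ <;>
      rcases k3 with ⟨e3, -⟩ | ⟨e3, -⟩ <;> subst_vars <;> simp_all

variable {Z : Type} [TopologicalSpace Z] {p : Z} {f : Z ≃ₜ Z} (M : Mk p f V R T)

/-- the `n`-th image of the neighbourhood of `v` -/
def NB (v : V) (n : ℤ) : Set Z := M.Ψ '' {q | inN v n q}

theorem mem_NB {v : V} {n : ℤ} {q : Pt V R T} : M.Ψ q ∈ NB M v n ↔ inN v n q :=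
  M.ch.bij.1.mem_set_image

theorem it_NB {v : V} {n k : ℤ} {q : Pt V R T} :
    it f k (M.Ψ q) ∈ NB M v n ↔ inN v n (sh k q) := by
  rw [M.eq', mem_NB]

theorem nbNB (v : V) (n : ℤ) : Nb (NB M v n) (M.Ψ (.lim v n)) := M.ch.nb v n

theorem itlim (v : V) (n k : ℤ) : it f k (M.Ψ (.lim v n)) = M.Ψ (.lim v (n + k)) := M.eq' k _

theorem lim_inj {v w : V} {n m : ℤ} (h : M.Ψ (.lim v n) = M.Ψ (.lim w m)) : v = w ∧ n = m := by
  have h1 := M.ch.bij.1 h
  injection h1 with h2 h3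
  exact ⟨h2, h3⟩

theorem same_orb {v w : V} {n m : ℤ} :
    (∀ k, it f k (M.Ψ (.lim v n)) ≠ M.Ψ (.lim w m)) ↔ v ≠ w := by
  constructor
  · rintro h rfl
    apply h (m - n)
    rw [itlim]
    congr 2
    omega
  · intro h k hk
    rw [itlim] at hk
    exact h (lim_inj M hk).1

theorem lim_ne (v : V) (n : ℤ) : M.Ψ (.lim v n) ≠ p := by
  intro h
  have := M.ch.bij.1 (h.trans M.pt.symm)
  cases this

theorem iso_inj {o o' : Ob V R T} {n m : ℤ} (h : M.Ψ (.iso o n) = M.Ψ (.iso o' m)) :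
    o = o' ∧ n = m := by
  have h1 := M.ch.bij.1 h
  injection h1 with h2 h3
  exact ⟨h2, h3⟩

theorem lim_of {x : Z} (h : ¬ Io x) (hx : x ≠ p) : ∃ v n, x = M.Ψ (.lim v n) := by
  obtain ⟨q, rfl⟩ := M.ch.bij.2 x
  cases q with
  | inf => exact (hx M.pt).elim
  | lim v n => exact ⟨v, n, rfl⟩
  | iso o n => exact (h (M.ch.io o n)).elim

variable [CompactSpace Z] [T2Space Z] (hp : Om p)

include M hp

theorem iso_of {x : Z} (h : Io x) : ∃ o n, x = M.Ψ (.iso o n) := by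
  obtain ⟨q, rfl⟩ := M.ch.bij.2 x
  cases q with
  | inf =>
    rw [M.pt] at h
    exact (hp.lim h).elim
  | lim v n => exact ((nbNB M v n).lim h).elim
  | iso o n => exact ⟨o, n, rfl⟩

theorem nb_of {A : Set Z} {y : Z} (h : Nb A y) : ∃ v n, y = M.Ψ (.lim v n) := by
  refine lim_of M h.lim fun h1 => ?_
  subst h1
  exact hp.no h

theorem orb_inj {z : Z} (h : Io z) : Function.Injective fun k : ℤ => it f k z := by
  obtain ⟨o, n, rfl⟩ := iso_of M hp h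
  intro a b hab
  simp only [M.eq'] at hab
  have := (iso_inj M hab).2
  omega

theorem finA {A : Set Z} {y : Z} (hA : Nb A y) {z : Z} (hz : Io z) :
    {n : ℤ | it f n z ∈ A}.Finite := by
  obtain ⟨v, n, rfl⟩ := nb_of M hp hA
  have h1 : {k : ℤ | it f k z ∈ NB M v n}.Finite := by
    obtain ⟨o, m, rfl⟩ := iso_of M hp hz
    refine (ps_fin v n m o).subset fun k hk => ?_
    exact (it_NB M).1 hk
  have h2 : {k : ℤ | it f k z ∈ A \ NB M v n}.Finite :=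
    (hA.diff (nbNB M v n)).preimage (orb_inj M hp hz).injOn
  refine (h1.union h2).subset fun k hk => ?_
  by_cases h3 : it f k z ∈ NB M v n
  · exact Or.inl h3
  · exact Or.inr ⟨hk, h3⟩

theorem finD {D A : Set Z} {y : Z} (hA : Nb A y) (hD : D.Finite) (hi : ∀ d ∈ D, Io d) :
    {t : ℤ | ∃ d ∈ D, it f t d ∈ A}.Finite := by
  have : {t : ℤ | ∃ d ∈ D, it f t d ∈ A} = ⋃ d ∈ D, {t : ℤ | it f t d ∈ A} := by
    ext t
    simp
  rw [this]
  exact hD.biUnion fun d hd => finA M hp hA (hi d hd)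

theorem finD' {D A : Set Z} {y : Z} (hA : Nb A y) (hD : D.Finite) (hi : ∀ d ∈ D, Io d) :
    {t : ℤ | ∃ d ∈ D, it f (-t) d ∈ A}.Finite :=
  (finD M hp hA hD hi).preimage (f := fun t => -t) neg_injective.injOn

theorem slfM (hirr : ∀ v, ¬ R v v) {A : Set Z} {y : Z} (hA : Nb A y) :
    {t : ℤ | t ≠ 0 ∧ ∃ z, z ∈ A ∧ Io z ∧ it f t z ∈ A}.Finite := by
  obtain ⟨v, n, rfl⟩ := nb_of M hp hA
  have hD := hA.diff (nbNB M v n)
  have hi : ∀ d ∈ A \ NB M v n, Io d := fun d hd => hA.diff_io (nbNB M v n) hd.1 hd.2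
  refine ((finD M hp hA hD hi).union (finD' M hp hA hD hi)).subset ?_
  rintro t ⟨ht, z, h1, h2, h3⟩
  by_cases h4 : z ∈ NB M v n
  · by_cases h5 : it f t z ∈ NB M v n
    · exfalso
      obtain ⟨o, m, rfl⟩ := iso_of M hp h2
      exact ht (ps_self hirr ((mem_NB M).1 h4) ((it_NB M).1 h5))
    · right
      exact ⟨_, ⟨h3, h5⟩, by rwa [it_neg]⟩
  · left
    exact ⟨z, ⟨h1, h4⟩, h3⟩

theorem agree {A B : Set Z} {v w : V} {n m : ℤ} (hA : Nb A (M.Ψ (.lim v n)))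
    (hB : Nb B (M.Ψ (.lim w m))) : ∃ N : ℕ, ∀ t : ℕ, N ≤ t → ∀ z, (z ∈ A ∧ Io z ∧ it f t z ∈ B) ↔
      (z ∈ NB M v n ∧ Io z ∧ it f t z ∈ NB M w m) := by
  have hA' := nbNB M v n
  have hB' := nbNB M w m
  have f1 := finD M hp hB (hA.diff hA') fun d hd => hA.diff_io hA' hd.1 hd.2
  have f2 := finD M hp hB' (hA'.diff hA) fun d hd => hA'.diff_io hA hd.1 hd.2
  have f3 := finD' M hp hA (hB.diff hB') fun d hd => hB.diff_io hB' hd.1 hd.2
  have f4 := finD' M hp hA' (hB'.diff hB) fun d hd => hB'.diff_io hB hd.1 hd.2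
  obtain ⟨N, hN⟩ := ((f1.union f2).union (f3.union f4)).bddAbove
  refine ⟨N.natAbs + 1, fun t ht z => ?_⟩
  have ht' : (t : ℤ) ∉ ({t : ℤ | ∃ d ∈ A \ NB M v n, it f t d ∈ B} ∪
      {t : ℤ | ∃ d ∈ NB M v n \ A, it f t d ∈ NB M w m} ∪
      ({t : ℤ | ∃ d ∈ B \ NB M w m, it f (-t) d ∈ A} ∪
      {t : ℤ | ∃ d ∈ NB M w m \ B, it f (-t) d ∈ NB M v n})) := by
    intro h
    have := hN h
    omega
  simp only [mem_union, mem_setOf_eq, not_or, not_exists, not_and] at ht'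
  obtain ⟨⟨g1, g2⟩, g3, g4⟩ := ht'
  constructor
  · rintro ⟨h1, h2, h3⟩
    refine ⟨?_, h2, ?_⟩
    · by_contra h4
      exact g1 z ⟨h1, h4⟩ h3
    · by_contra h4
      exact g3 _ ⟨h3, h4⟩ (by rwa [it_neg])
  · rintro ⟨h1, h2, h3⟩
    refine ⟨?_, h2, ?_⟩
    · by_contra h4
      exact g2 z ⟨h1, h4⟩ h3
    · by_contra h4
      exact g4 _ ⟨h3, h4⟩ (by rwa [it_neg])

theorem rel_iff {A B : Set Z} {v w : V} {n m : ℤ} (hA : Nb A (M.Ψ (.lim v n)))
    (hB : Nb B (M.Ψ (.lim w m))) (hne : v ≠ w) : Rel f A B ↔ R v w := by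
  obtain ⟨N, hN⟩ := agree M hp hA hB
  constructor
  · intro h
    obtain ⟨t, ⟨z, hz⟩, ht⟩ := h.exists_gt (max N (m - n).natAbs)
    have h1 := (hN t (by omega) z).1 hz
    obtain ⟨o, k, rfl⟩ := iso_of M hp h1.2.1
    obtain ⟨-, hR, -⟩ := ps_one hne (by omega) ((mem_NB M).1 h1.1) ((it_NB M).1 h1.2.2)
    exact hR
  · intro h
    have h0 : (Set.Ici (max N ((m - n).natAbs + T v w))).Infinite := Set.Ici_infinite _
    refine h0.mono fun t ht => ?_
    have ht1 : max N ((m - n).natAbs + T v w) ≤ t := ht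
    obtain ⟨t0, h2⟩ := Int.eq_ofNat_of_zero_le (a := t + n - m) (by omega)
    have h3 : T v w ≤ t0 := by omega
    refine ⟨M.Ψ (.iso (.arc v w h t0 h3) n), (hN t (by omega) _).2 ⟨?_, M.ch.io _ _, ?_⟩⟩
    · rw [mem_NB]
      exact Or.inl ⟨rfl, rfl⟩
    · rw [it_NB]
      refine Or.inr ⟨rfl, ?_⟩
      omega

theorem oneM {A B : Set Z} {v w : V} {n m : ℤ} (hA : Nb A (M.Ψ (.lim v n)))
    (hB : Nb B (M.Ψ (.lim w m))) (hne : v ≠ w) (hR : R v w) :
    ∃ N : ℕ, ∀ t : ℕ, N ≤ t → ∃ z, (z ∈ A ∧ Io z ∧ it f t z ∈ B) ∧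
      ∀ z', (z' ∈ A ∧ Io z' ∧ it f t z' ∈ B) → z' = z := by
  obtain ⟨N, hN⟩ := agree M hp hA hB
  refine ⟨max N ((m - n).natAbs + T v w + 1), fun t ht => ?_⟩
  obtain ⟨t0, h2⟩ := Int.eq_ofNat_of_zero_le (a := t + n - m) (by omega)
  have h3 : T v w ≤ t0 := by omega
  refine ⟨M.Ψ (.iso (.arc v w hR t0 h3) n), (hN t (by omega) _).2 ⟨?_, M.ch.io _ _, ?_⟩, ?_⟩
  · rw [mem_NB]
    exact Or.inl ⟨rfl, rfl⟩
  · rw [it_NB]
    refine Or.inr ⟨rfl, ?_⟩
    omega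
  · intro z' hz'
    have h1 := (hN t (by omega) z').1 hz'
    obtain ⟨o, k, rfl⟩ := iso_of M hp h1.2.1
    obtain ⟨rfl, hR', t1, h4, h5, rfl⟩ := ps_one hne (by omega) ((mem_NB M).1 h1.1)
      ((it_NB M).1 h1.2.2)
    have : t1 = t0 := by omega
    subst this
    rfl

theorem finOrb {A : Set Z} {y : Z} (hA : Nb A y) {D : Set Z} (hD : D.Finite)
    (hi : ∀ d ∈ D, Io d) : {z | z ∈ A ∧ ∃ s : ℤ, it f s z ∈ D}.Finite := by
  have h1 : {z | z ∈ A ∧ ∃ s : ℤ, it f s z ∈ D} ⊆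
      ⋃ d ∈ D, (fun k : ℤ => it f k d) '' {k : ℤ | it f k d ∈ A} := by
    rintro z ⟨h2, s, h3⟩
    simp only [mem_iUnion]
    refine ⟨_, h3, -s, ?_, ?_⟩
    · show it f (-s) (it f s z) ∈ A
      rwa [it_neg]
    · show it f (-s) (it f s z) = z
      rw [it_neg]
  exact (hD.biUnion fun d hd => (finA M hp hA (hi d hd)).image _).subset h1

theorem triM {A B C : Set Z} {v w u : V} {n m l : ℤ} (hA : Nb A (M.Ψ (.lim v n)))
    (hB : Nb B (M.Ψ (.lim w m))) (hC : Nb C (M.Ψ (.lim u l))) (h1 : v ≠ w) (h2 : v ≠ u)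
    (h3 : w ≠ u) : {z | z ∈ A ∧ Io z ∧ (∃ s : ℤ, it f s z ∈ B) ∧ ∃ s : ℤ, it f s z ∈ C}.Finite := by
  have hA' := nbNB M v n
  have hB' := nbNB M w m
  have hC' := nbNB M u l
  refine ((hA.diff hA').union ((finOrb M hp hA (hB.diff hB')
    fun d hd => hB.diff_io hB' hd.1 hd.2).union (finOrb M hp hA (hC.diff hC')
    fun d hd => hC.diff_io hC' hd.1 hd.2))).subset ?_
  rintro z ⟨k1, k2, ⟨s, k3⟩, s', k4⟩
  by_cases k5 : z ∈ NB M v n
  · right
    by_cases k6 : it f s z ∈ NB M w m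
    · by_cases k7 : it f s' z ∈ NB M u l
      · exfalso
        obtain ⟨o, k, rfl⟩ := iso_of M hp k2
        exact ps_three h1 h2 h3 ((mem_NB M).1 k5) ((it_NB M).1 k6) ((it_NB M).1 k7)
      · right
        exact ⟨k1, s', k4, k7⟩
    · left
      exact ⟨k1, s, k3, k6⟩
  · left
    exact ⟨k1, k5⟩

theorem pndM {A B : Set Z} {v : V} {n : ℤ} (hA : Nb A (M.Ψ (.lim v n))) (hB : IsClopen B)
    (hpB : p ∉ B) (hk : ∀ k : ℤ, it f k (M.Ψ (.lim v n)) ∉ B) :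
    {z | z ∈ A ∧ Io z ∧ ∀ s : ℤ, it f s z ∉ B}.Infinite := by
  classical
  obtain ⟨s, hs1, hs2⟩ := cover (ι := V × ℤ) (N := fun i => NB M i.1 i.2) hB.isClosed
    (fun i => (nbNB M i.1 i.2).cl.isOpen) (fun x hx => by
      by_cases hi : Io x
      · exact Or.inl hi
      · right
        obtain ⟨w, m, rfl⟩ := lim_of M hi (fun h => hpB (h ▸ hx))
        exact ⟨(w, m), (nbNB M w m).mem⟩)
  let G : Set Z := ⋃ i ∈ s, {x | i.1 = v ∧ x ∈ B ∩ NB M i.1 i.2}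
  have hG : G.Finite ∧ ∀ x ∈ G, Io x := by
    have key : ∀ i : V × ℤ, ∀ x ∈ {x | i.1 = v ∧ x ∈ B ∩ NB M i.1 i.2}, Io x := by
      rintro ⟨w, m⟩ x ⟨rfl, h1, h2⟩
      by_contra hcon
      have := (nbNB M w m).uni x h2 hcon
      subst this
      apply hk (m - n)
      rw [itlim]
      convert h1 using 3
      omega
    refine ⟨s.finite_toSet.biUnion fun i _ => ?_, fun x hx => ?_⟩
    · refine fin_io ?_ (key i)
      by_cases hi : i.1 = v
      · have : {x | i.1 = v ∧ x ∈ B ∩ NB M i.1 i.2} = B ∩ NB M i.1 i.2 := by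
          ext x
          exact ⟨fun h => h.2, fun h => ⟨hi, h⟩⟩
        rw [this]
        exact hB.isClosed.inter (nbNB M i.1 i.2).cl.isClosed
      · have : {x | i.1 = v ∧ x ∈ B ∩ NB M i.1 i.2} = ∅ := by
          ext x
          exact ⟨fun h => (hi h.1).elim, fun h => h.elim⟩
        rw [this]
        exact isClosed_empty
    · simp only [G, mem_iUnion] at hx
      obtain ⟨i, -, hx⟩ := hx
      exact key i x hx
  let F : Set Z := (B \ ⋃ i ∈ s, NB M i.1 i.2) ∪ G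
  have hF : F.Finite := hs1.union hG.1
  have hFi : ∀ x ∈ F, Io x := by
    rintro x (hx | hx)
    · exact hs2 x hx
    · exact hG.2 x hx
  let g : ℕ → Z := fun j => M.Ψ (.iso (.pnd v j) n)
  have hg : Function.Injective g := by
    intro j j' h
    have h1 := (iso_inj M h).1
    injection h1
  have b1 : {j : ℕ | g j ∈ NB M v n \ A}.Finite :=
    ((nbNB M v n).diff hA).preimage hg.injOn
  have b2 : {j : ℕ | ∃ k : ℤ, it f k (g j) ∈ F}.Finite := by
    have : {j : ℕ | ∃ k : ℤ, it f k (g j) ∈ F} ⊆ ⋃ d ∈ F, {j : ℕ | ∃ k : ℤ, it f k (g j) = d} := by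
      rintro j ⟨k, h1⟩
      simp only [mem_iUnion]
      exact ⟨_, h1, k, rfl⟩
    refine (hF.biUnion fun d hd => ?_).subset this
    refine Set.Subsingleton.finite ?_
    rintro j ⟨k, h1⟩ j' ⟨k', h2⟩
    rw [← h2] at h1
    simp only [g, M.eq'] at h1
    have h3 := (iso_inj M h1).1
    injection h3
  have hinf : {j : ℕ | ¬ (g j ∈ NB M v n \ A) ∧ ¬ ∃ k : ℤ, it f k (g j) ∈ F}.Infinite := by
    have h1 := (b1.union b2).infinite_compl
    refine h1.mono fun j hj => ?_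
    simp only [mem_compl_iff, mem_union, not_or] at hj
    exact hj
  refine (hinf.image hg.injOn).mono ?_
  rintro _ ⟨j, ⟨h1, h2⟩, rfl⟩
  refine ⟨?_, M.ch.io _ _, fun k hk' => ?_⟩
  · by_contra h3
    refine h1 ⟨?_, h3⟩
    rw [mem_NB]
    exact ⟨rfl, rfl⟩
  · by_cases h4 : it f k (g j) ∈ ⋃ i ∈ s, NB M i.1 i.2
    · have h5 := h4
      simp only [mem_iUnion] at h4
      obtain ⟨⟨w, m⟩, hi, h6⟩ := h4
      have h7 := (it_NB M).1 h6
      have h8 : v = w := h7.1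
      subst h8
      refine h2 ⟨k, Or.inr ?_⟩
      simp only [G, mem_iUnion]
      exact ⟨(v, m), hi, rfl, hk', h6⟩
    · exact h2 ⟨k, Or.inl ⟨hk', h4⟩⟩

end

end Pool.Agent.H642.CK
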