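import Pool.Agent.H642.CK.GM

set_option autoImplicit false
set_option linter.unusedSectionVars false
set_option linter.unusedVariables false

/-! Marked systems are good, and their graph. -/

namespace Pool.Agent.H642.CK

open Set TopologicalSpace
open Pool.Agent.H642.CH (it it_zero it_one it_add it_neg it_neg' it_cont)

section

variable {V : Type} {R : V → V → Prop} {T : V → V → ℕ}
variable {Z : Type} [TopologicalSpace Z] {p : Z} {f : Z ≃ₜ Z} (M : Mk p f V R T)
variable [CompactSpace Z] [T2Space Z] [Countable Z] (hp : Om p)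

theorem cd_ex (v : V) : ∃ u, ∃ k : ℤ, enc (M.Ψ (.lim v k)) = u := ⟨_, 0, rfl⟩

open Classical in
/-- the code of an orbit -/
noncomputable def cd (v : V) : ℕ := Nat.find (cd_ex M v)

theorem cd_spec (v : V) : ∃ k : ℤ, enc (M.Ψ (.lim v k)) = cd M v := by
  classical
  exact Nat.find_spec (cd_ex M v)

theorem cd_le (v : V) (k : ℤ) : cd M v ≤ enc (M.Ψ (.lim v k)) := by
  classical
  exact Nat.find_min' (cd_ex M v) ⟨k, rfl⟩

theorem cd_pv (v : V) : PV p f (cd M v) := by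
  obtain ⟨k, hk⟩ := cd_spec M v
  refine ⟨_, hk, (nbNB M v k).lim, lim_ne M v k, fun j => ?_⟩
  rw [itlim]
  exact cd_le M v _

theorem cd_inj : Function.Injective (cd M) := by
  intro v w h
  obtain ⟨k, hk⟩ := cd_spec M v
  obtain ⟨l, hl⟩ := cd_spec M w
  rw [← hk, ← hl] at h
  exact (lim_inj M (enc_inj h)).1

theorem cd_surj {u : ℕ} (h : PV p f u) : ∃ v, cd M v = u := by
  obtain ⟨y, rfl, h1, h2, h3⟩ := h
  obtain ⟨v, n, rfl⟩ := lim_of M h1 h2
  refine ⟨v, le_antisymm (cd_le M v n) ?_⟩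
  obtain ⟨k, hk⟩ := cd_spec M v
  have h4 := h3 (k - n)
  rw [itlim, show n + (k - n) = k by omega, hk] at h4
  exact h4

include M hp

theorem ad_cd (v w : V) : Ad f (cd M v) (cd M w) ↔ v ≠ w ∧ R v w := by
  constructor
  · rintro ⟨y, y', h1, h2, h3, A, B, hA, hB, hr⟩
    obtain ⟨k, hk⟩ := cd_spec M v
    obtain ⟨l, hl⟩ := cd_spec M w
    rw [← hk] at h1
    rw [← hl] at h2
    have e1 := enc_inj h1
    have e2 := enc_inj h2
    subst e1
    subst e2
    have hne := (same_orb M).1 h3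
    exact ⟨hne, (rel_iff M hp hA hB hne).1 hr⟩
  · rintro ⟨hne, hr⟩
    obtain ⟨k, hk⟩ := cd_spec M v
    obtain ⟨l, hl⟩ := cd_spec M w
    exact ⟨_, _, hk, hl, (same_orb M).2 hne, ⟨NB M v k, (nbNB M v k).cl⟩,
      ⟨NB M w l, (nbNB M w l).cl⟩, nbNB M v k, nbNB M w l,
      (rel_iff M hp (nbNB M v k) (nbNB M w l) hne).2 hr⟩

theorem graph_of_mk : ∃ θ : V ≃ {u // PV p f u}, ∀ v w, Ad f (θ v) (θ w) ↔ v ≠ w ∧ R v w :=
  ⟨Equiv.ofBijective (fun v => (⟨cd M v, cd_pv M v⟩ : {u // PV p f u}))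
    ⟨fun v w h => cd_inj M (congrArg Subtype.val h), fun ⟨u, hu⟩ => by
      obtain ⟨v, rfl⟩ := cd_surj M hu
      exact ⟨v, rfl⟩⟩, fun v w => ad_cd M hp v w⟩

theorem good_of_mk [Infinite V] (hirr : ∀ v, ¬ R v v) (hsym : ∀ v w, R v w → R w v) :
    Good p f where
  per := by
    intro y h1 h2 k hk h3
    obtain ⟨v, n, rfl⟩ := lim_of M h1 h2
    rw [itlim] at h3
    have := (lim_inj M h3).2
    omega
  fin := fun A y hA z hz => finA M hp hA hz
  slf := fun A y hA => slfM M hp hirr hA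
  one := by
    intro A B y y' hA hB hne hr
    obtain ⟨v, n, rfl⟩ := nb_of M hp hA
    obtain ⟨w, m, rfl⟩ := nb_of M hp hB
    have h1 := (same_orb M).1 hne
    exact oneM M hp hA hB h1 ((rel_iff M hp hA hB h1).1 hr)
  tri := by
    intro A B C y y' y'' hA hB hC h1 h2 h3
    obtain ⟨v, n, rfl⟩ := nb_of M hp hA
    obtain ⟨w, m, rfl⟩ := nb_of M hp hB
    obtain ⟨u, l, rfl⟩ := nb_of M hp hC
    exact triM M hp hA hB hC ((same_orb M).1 h1) ((same_orb M).1 h2) ((same_orb M).1 h3)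
  pnd := by
    intro A B y hA hpB hk
    obtain ⟨v, n, rfl⟩ := nb_of M hp hA
    exact pndM M hp hA B.isClopen hpB hk
  inf := by
    intro N
    have h1 : (range (cd M)).Infinite := infinite_range_of_injective (cd_inj M)
    obtain ⟨u, ⟨v, rfl⟩, hu⟩ := h1.exists_gt N
    exact ⟨_, hu.le, cd_pv M v⟩
  sym := by
    intro A B y y' hA hB hne hr
    obtain ⟨v, n, rfl⟩ := nb_of M hp hA
    obtain ⟨w, m, rfl⟩ := nb_of M hp hB
    have h1 := (same_orb M).1 hne
    exact (rel_iff M hp hB hA h1.symm).2 (hsym _ _ ((rel_iff M hp hA hB h1).1 hr))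

end

end Pool.Agent.H642.CK
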