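import Pool.Agent.H642.CK.Mod
import Pool.Graph.R_seed8.W889.SD.Deg

set_option autoImplicit false
set_option linter.unusedSectionVars false
set_option linter.style.haveILetI false
set_option linter.unusedVariables false

/-! The homeomorphisms that code graphs: a Borel class. -/

namespace Pool.Agent.H642.CK

open Set TopologicalSpace
open Pool.Agent.H642.CH (it it_zero it_one it_add it_neg it_neg' it_cont)
open Pool.Agent.W889.VC (BP)

/-- the σ-algebra generated by the evaluations -/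
@[instance_reducible]
def hm (Z : Type) [TopologicalSpace Z] : MeasurableSpace (Z ≃ₜ Z) :=
  MeasurableSpace.comap (fun f => (f : Z → Z))
    (@MeasurableSpace.pi Z (fun _ => Z) (fun _ => borel Z))

attribute [local instance] hm

theorem BP.fin {Y : Type} [MeasurableSpace Y] {ι : Type} [Countable ι] {p : ι → Y → Prop}
    (h : ∀ i, BP (p i)) : BP (fun y => {i | p i y}.Finite) := by
  refine (BP.ex fun s : Finset ι => BP.all fun i => (h i).imp (BP.const (i ∈ s))).congr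
    fun y => ⟨fun ⟨s, hs⟩ => s.finite_toSet.subset fun i hi => hs i hi, fun hf => ?_⟩
  exact ⟨hf.toFinset, fun i hi => hf.mem_toFinset.2 hi⟩

section

variable {Z : Type} [TopologicalSpace Z]

theorem meas_ev (x : Z) : @Measurable (Z ≃ₜ Z) Z (hm Z) (borel Z) (fun f => f x) := by
  letI : MeasurableSpace Z := borel Z
  have h1 : Measurable (fun f : Z ≃ₜ Z => (f : Z → Z)) := comap_measurable _
  exact (measurable_pi_apply x).comp h1

theorem bp_ev [T1Space Z] (x y : Z) : BP (fun f : Z ≃ₜ Z => f x = y) := by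
  letI : MeasurableSpace Z := borel Z
  haveI : BorelSpace Z := ⟨rfl⟩
  exact (meas_ev x) (isClosed_singleton (x := y)).measurableSet

variable [T1Space Z] [Countable Z]

theorem bp_it (k : ℤ) (x y : Z) : BP (fun f : Z ≃ₜ Z => it f k x = y) := by
  have h1 : ∀ (n : ℕ) (x y : Z), BP (fun f : Z ≃ₜ Z => it f n x = y) := by
    intro n
    induction n with
    | zero =>
      intro x y
      refine (BP.const (x = y)).congr fun f => ?_
      simp [it_zero]
    | succ n ih =>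
      intro x y
      refine (BP.ex fun z : Z => (ih x z).and (bp_ev z y)).congr fun f => ?_
      have : it f ((n + 1 : ℕ) : ℤ) x = f (it f n x) := by
        rw [← it_one f (it f n x), it_it]
        congr 1
        push_cast
        ring
      rw [this]
      constructor
      · rintro ⟨z, rfl, h⟩
        exact h
      · intro h
        exact ⟨_, rfl, h⟩
  rcases le_total 0 k with hk | hk
  · obtain ⟨n, rfl⟩ := Int.eq_ofNat_of_zero_le hk
    exact h1 n x y
  · obtain ⟨n, hn⟩ := Int.eq_ofNat_of_zero_le (Int.neg_nonneg_of_nonpos hk)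
    refine (h1 n y x).congr fun f => ?_
    rw [← hn, it_eq, neg_neg, eq_comm]

theorem bp_itA (k : ℤ) (x : Z) (A : Set Z) : BP (fun f : Z ≃ₜ Z => it f k x ∈ A) := by
  refine (BP.ex fun y : Z => (bp_it k x y).and (BP.const (y ∈ A))).congr fun f => ?_
  constructor
  · rintro ⟨y, rfl, h⟩
    exact h
  · intro h
    exact ⟨_, rfl, h⟩

/-- an enumeration -/
noncomputable def enc (z : Z) : ℕ := (exists_injective_nat Z).choose z

theorem enc_inj : Function.Injective (enc : Z → ℕ) := (exists_injective_nat Z).choose_spec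

/-- infinitely many passages -/
def Rel (f : Z ≃ₜ Z) (A B : Set Z) : Prop := {t : ℕ | ∃ z, z ∈ A ∧ Io z ∧ it f t z ∈ B}.Infinite

/-- the codes of the orbits of the limit points -/
def PV (p : Z) (f : Z ≃ₜ Z) (u : ℕ) : Prop :=
  ∃ y, enc y = u ∧ ¬ Io y ∧ y ≠ p ∧ ∀ k : ℤ, u ≤ enc (it f k y)

/-- adjacency of the codes -/
def Ad (f : Z ≃ₜ Z) (u v : ℕ) : Prop :=
  ∃ y y', enc y = u ∧ enc y' = v ∧ (∀ k : ℤ, it f k y ≠ y') ∧
    ∃ A B : Clopens Z, Nb (A : Set Z) y ∧ Nb (B : Set Z) y' ∧ Rel f A B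

/-- the class of the homeomorphisms that code graphs -/
structure Good (p : Z) (f : Z ≃ₜ Z) : Prop where
  per : ∀ y, ¬ Io y → y ≠ p → ∀ k : ℤ, k ≠ 0 → it f k y ≠ y
  fin : ∀ (A : Clopens Z) y, Nb (A : Set Z) y → ∀ z, Io z →
    {n : ℤ | it f n z ∈ (A : Set Z)}.Finite
  slf : ∀ (A : Clopens Z) y, Nb (A : Set Z) y →
    {t : ℤ | t ≠ 0 ∧ ∃ z, z ∈ (A : Set Z) ∧ Io z ∧ it f t z ∈ (A : Set Z)}.Finite
  one : ∀ (A B : Clopens Z) y y', Nb (A : Set Z) y → Nb (B : Set Z) y' →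
    (∀ k : ℤ, it f k y ≠ y') → Rel f A B → ∃ N : ℕ, ∀ t : ℕ, N ≤ t →
      ∃ z, (z ∈ (A : Set Z) ∧ Io z ∧ it f t z ∈ (B : Set Z)) ∧
        ∀ z', (z' ∈ (A : Set Z) ∧ Io z' ∧ it f t z' ∈ (B : Set Z)) → z' = z
  tri : ∀ (A B C : Clopens Z) y y' y'', Nb (A : Set Z) y → Nb (B : Set Z) y' →
    Nb (C : Set Z) y'' → (∀ k : ℤ, it f k y ≠ y') → (∀ k : ℤ, it f k y ≠ y'') →
    (∀ k : ℤ, it f k y' ≠ y'') →
      {z | z ∈ (A : Set Z) ∧ Io z ∧ (∃ s : ℤ, it f s z ∈ (B : Set Z)) ∧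
        ∃ s : ℤ, it f s z ∈ (C : Set Z)}.Finite
  pnd : ∀ (A B : Clopens Z) y, Nb (A : Set Z) y → p ∉ (B : Set Z) →
    (∀ k : ℤ, it f k y ∉ (B : Set Z)) →
      {z | z ∈ (A : Set Z) ∧ Io z ∧ ∀ s : ℤ, it f s z ∉ (B : Set Z)}.Infinite
  inf : ∀ N : ℕ, ∃ u, N ≤ u ∧ PV p f u
  sym : ∀ (A B : Clopens Z) y y', Nb (A : Set Z) y → Nb (B : Set Z) y' →
    (∀ k : ℤ, it f k y ≠ y') → Rel f A B → Rel f B A

theorem bp_rel (A B : Set Z) : BP (fun f : Z ≃ₜ Z => Rel f A B) :=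
  (BP.fin fun t : ℕ => BP.ex fun z : Z => (BP.const (z ∈ A)).and ((BP.const (Io z)).and
    (bp_itA t z B))).not

theorem bp_pv (p : Z) (u : ℕ) : BP (fun f : Z ≃ₜ Z => PV p f u) := by
  refine BP.ex fun y : Z => (BP.const _).and ((BP.const _).and ((BP.const _).and
    (BP.all fun k : ℤ => ?_)))
  exact bp_itA k y {x | u ≤ enc x}

theorem bp_ne (y y' : Z) : BP (fun f : Z ≃ₜ Z => ∀ k : ℤ, it f k y ≠ y') :=
  BP.all fun k : ℤ => (bp_it k y y').not

variable [CompactSpace Z] [T2Space Z] [SecondCountableTopology Z] [TotallyDisconnectedSpace Z]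

instance : Countable (Clopens Z) := (Clopens.countable_iff_secondCountable).2 inferInstance

theorem bp_ad (u v : ℕ) : BP (fun f : Z ≃ₜ Z => Ad f u v) :=
  BP.ex fun y : Z => BP.ex fun y' : Z => (BP.const _).and ((BP.const _).and ((bp_ne y y').and
    (BP.ex fun A : Clopens Z => BP.ex fun B : Clopens Z => (BP.const _).and ((BP.const _).and
      (bp_rel _ _)))))

theorem bp_good (p : Z) : BP (fun f : Z ≃ₜ Z => Good p f) := by
  have h1 : BP (fun f : Z ≃ₜ Z => ∀ y, ¬ Io y → y ≠ p → ∀ k : ℤ, k ≠ 0 → it f k y ≠ y) :=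
    BP.all fun y => (BP.const _).imp ((BP.const _).imp (BP.all fun k : ℤ => (BP.const _).imp
      (bp_it k y y).not))
  have h2 : BP (fun f : Z ≃ₜ Z => ∀ (A : Clopens Z) y, Nb (A : Set Z) y → ∀ z, Io z →
      {n : ℤ | it f n z ∈ (A : Set Z)}.Finite) :=
    BP.all fun A : Clopens Z => BP.all fun y : Z => (BP.const _).imp (BP.all fun z : Z =>
      (BP.const _).imp (BP.fin fun n : ℤ => bp_itA n z A))
  have h3 : BP (fun f : Z ≃ₜ Z => ∀ (A : Clopens Z) y, Nb (A : Set Z) y →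
      {t : ℤ | t ≠ 0 ∧ ∃ z, z ∈ (A : Set Z) ∧ Io z ∧ it f t z ∈ (A : Set Z)}.Finite) :=
    BP.all fun A : Clopens Z => BP.all fun y : Z => (BP.const _).imp (BP.fin fun n : ℤ =>
      (BP.const _).and (BP.ex fun z : Z => (BP.const _).and ((BP.const _).and (bp_itA n z A))))
  have h4 : BP (fun f : Z ≃ₜ Z => ∀ (A B : Clopens Z) y y', Nb (A : Set Z) y →
      Nb (B : Set Z) y' → (∀ k : ℤ, it f k y ≠ y') → Rel f A B → ∃ N : ℕ, ∀ t : ℕ, N ≤ t →
      ∃ z, (z ∈ (A : Set Z) ∧ Io z ∧ it f t z ∈ (B : Set Z)) ∧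
        ∀ z', (z' ∈ (A : Set Z) ∧ Io z' ∧ it f t z' ∈ (B : Set Z)) → z' = z) := by
    have h0 : ∀ (A B : Set Z) (t : ℕ) (z : Z), BP (fun f : Z ≃ₜ Z => z ∈ A ∧ Io z ∧
        it f t z ∈ B) := fun A B t z => (BP.const _).and ((BP.const _).and (bp_itA t z B))
    exact BP.all fun A : Clopens Z => BP.all fun B : Clopens Z => BP.all fun y : Z =>
      BP.all fun y' : Z => (BP.const _).imp ((BP.const _).imp ((bp_ne y y').imp
      ((bp_rel A B).imp (BP.ex fun N : ℕ => BP.all fun t : ℕ => (BP.const _).imp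
      (BP.ex fun z : Z => (h0 A B t z).and (BP.all fun z' : Z => (h0 A B t z').imp
      (BP.const _)))))))
  have h5 : BP (fun f : Z ≃ₜ Z => ∀ (A B C : Clopens Z) y y' y'', Nb (A : Set Z) y →
      Nb (B : Set Z) y' → Nb (C : Set Z) y'' → (∀ k : ℤ, it f k y ≠ y') →
      (∀ k : ℤ, it f k y ≠ y'') → (∀ k : ℤ, it f k y' ≠ y'') →
      {z | z ∈ (A : Set Z) ∧ Io z ∧ (∃ s : ℤ, it f s z ∈ (B : Set Z)) ∧
        ∃ s : ℤ, it f s z ∈ (C : Set Z)}.Finite) :=
    BP.all fun A : Clopens Z => BP.all fun B : Clopens Z => BP.all fun C : Clopens Z =>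
      BP.all fun y : Z => BP.all fun y' : Z => BP.all fun y'' : Z => (BP.const _).imp
      ((BP.const _).imp ((BP.const _).imp ((bp_ne y y').imp ((bp_ne y y'').imp
      ((bp_ne y' y'').imp (BP.fin fun z : Z => (BP.const _).and ((BP.const _).and
      ((BP.ex fun s : ℤ => bp_itA s z B).and (BP.ex fun s : ℤ => bp_itA s z C)))))))))
  have h6 : BP (fun f : Z ≃ₜ Z => ∀ (A B : Clopens Z) y, Nb (A : Set Z) y →
      p ∉ (B : Set Z) → (∀ k : ℤ, it f k y ∉ (B : Set Z)) →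
      {z | z ∈ (A : Set Z) ∧ Io z ∧ ∀ s : ℤ, it f s z ∉ (B : Set Z)}.Infinite) :=
    BP.all fun A : Clopens Z => BP.all fun B : Clopens Z => BP.all fun y : Z =>
      (BP.const _).imp ((BP.const _).imp ((BP.all fun k : ℤ => (bp_itA k y B).not).imp
      (BP.fin fun z : Z => (BP.const _).and ((BP.const _).and (BP.all fun s : ℤ =>
      (bp_itA s z B).not))).not))
  have h7 : BP (fun f : Z ≃ₜ Z => ∀ N : ℕ, ∃ u, N ≤ u ∧ PV p f u) :=
    BP.all fun N : ℕ => BP.ex fun u : ℕ => (BP.const _).and (bp_pv p u)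
  have h8 : BP (fun f : Z ≃ₜ Z => ∀ (A B : Clopens Z) y y', Nb (A : Set Z) y →
      Nb (B : Set Z) y' → (∀ k : ℤ, it f k y ≠ y') → Rel f A B → Rel f B A) :=
    BP.all fun A : Clopens Z => BP.all fun B : Clopens Z => BP.all fun y : Z =>
      BP.all fun y' : Z => (BP.const _).imp ((BP.const _).imp ((bp_ne y y').imp
      ((bp_rel (A : Set Z) (B : Set Z)).imp (bp_rel (B : Set Z) (A : Set Z)))))
  refine (h1.and (h2.and (h3.and (h4.and (h5.and (h6.and (h7.and h8))))))).congr fun f =>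
    ⟨fun ⟨a, b, c, d, e, g, h, i⟩ => ⟨a, b, c, d, e, g, h, i⟩,
      fun ⟨a, b, c, d, e, g, h, i⟩ => ⟨a, b, c, d, e, g, h, i⟩⟩

end

end Pool.Agent.H642.CK
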