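import Pool.Agent.H642.CK.Top

set_option autoImplicit false

/-! The model systems over a graph, with one fixed point and wandering limit points. -/

namespace Pool.Agent.H642.CK

open Set
open Pool.Agent.H642.CH (it it_zero it_one it_add it_neg it_neg' it_cont)

/-- the isolated orbits: pendants and arcs -/
inductive Ob (V : Type) (R : V → V → Prop) (T : V → V → ℕ) : Type
  | pnd (v : V) (j : ℕ) : Ob V R T
  | arc (v w : V) (h : R v w) (t : ℕ) (ht : T v w ≤ t) : Ob V R T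

/-- the points of the model -/
inductive Pt (V : Type) (R : V → V → Prop) (T : V → V → ℕ) : Type
  | inf : Pt V R T
  | lim (v : V) (k : ℤ) : Pt V R T
  | iso (o : Ob V R T) (n : ℤ) : Pt V R T

variable {V : Type} {R : V → V → Prop} {T : V → V → ℕ}

/-- the shift -/
def sh (k : ℤ) : Pt V R T → Pt V R T
  | .inf => .inf
  | .lim v n => .lim v (n + k)
  | .iso o n => .iso o (n + k)

/-- the passages of the isolated orbits near the limit points -/
def ps (v : V) (n : ℤ) : Ob V R T → ℤ → Prop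
  | .pnd v' _, m => v' = v ∧ m = n
  | .arc a b _ t _, m => (a = v ∧ m = n) ∨ (b = v ∧ m = n + t)

/-- the neighbourhoods of the limit points -/
def inN (v : V) (n : ℤ) : Pt V R T → Prop
  | .inf => False
  | .lim v' k => v' = v ∧ k = n
  | .iso o m => ps v n o m

theorem sh_add (a b : ℤ) (p : Pt V R T) : sh (a + b) p = sh a (sh b p) := by
  cases p <;> simp [sh] <;> omega

theorem sh_zero (p : Pt V R T) : sh 0 p = p := by
  cases p <;> simp [sh]

theorem sh_neg (k : ℤ) (p : Pt V R T) : sh (-k) (sh k p) = p := by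
  rw [← sh_add, neg_add_cancel, sh_zero]

theorem sh_neg' (k : ℤ) (p : Pt V R T) : sh k (sh (-k) p) = p := by
  rw [← sh_add, add_neg_cancel, sh_zero]

theorem ps_sh (v : V) (n k : ℤ) (o : Ob V R T) (m : ℤ) : ps v n o (m + k) ↔ ps v (n - k) o m := by
  cases o <;> simp only [ps]
  · constructor <;> rintro ⟨h1, h2⟩ <;> exact ⟨h1, by omega⟩
  · constructor
    · rintro (⟨h1, h2⟩ | ⟨h1, h2⟩)
      · exact Or.inl ⟨h1, by omega⟩
      · exact Or.inr ⟨h1, by omega⟩
    · rintro (⟨h1, h2⟩ | ⟨h1, h2⟩)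
      · exact Or.inl ⟨h1, by omega⟩
      · exact Or.inr ⟨h1, by omega⟩

theorem inN_sh (v : V) (n k : ℤ) (p : Pt V R T) : inN v n (sh k p) ↔ inN v (n - k) p := by
  cases p with
  | inf => exact Iff.rfl
  | lim v' m =>
    simp only [sh, inN]
    constructor <;> rintro ⟨h1, h2⟩ <;> exact ⟨h1, by omega⟩
  | iso o m => exact ps_sh v n k o m

theorem inN_lim (v : V) (n : ℤ) : inN v n (.lim v n : Pt V R T) := ⟨rfl, rfl⟩

/-- charts -/
structure Chart {Z : Type} [TopologicalSpace Z] (Ψ : Pt V R T → Z) : Prop where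
  bij : Function.Bijective Ψ
  io : ∀ o n, Io (Ψ (.iso o n))
  nb : ∀ v n, Nb (Ψ '' {q | inN v n q}) (Ψ (.lim v n))

section

variable {Z W : Type} [TopologicalSpace Z] [CompactSpace Z] [T2Space Z] [TopologicalSpace W]
  [CompactSpace W] [T2Space W]

theorem Chart.cont {Ψ : Pt V R T → Z} {Ψ' : Pt V R T → W} (h : Chart Ψ) (h' : Chart Ψ')
    {e : Z → W} (he : ∀ q, e (Ψ q) = Ψ' q) : Continuous e := by
  have hinj : Function.Injective e := by
    intro x y hxy
    obtain ⟨q, rfl⟩ := h.bij.2 x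
    obtain ⟨q', rfl⟩ := h.bij.2 y
    rw [he, he] at hxy
    rw [h'.bij.1 hxy]
  have him : ∀ v n x, x ∈ Ψ '' {q | inN v n q} ↔ e x ∈ Ψ' '' {q | inN v n q} := by
    intro v n x
    obtain ⟨q, rfl⟩ := h.bij.2 x
    rw [he, h.bij.1.mem_set_image, h'.bij.1.mem_set_image]
  rw [continuous_iff_continuousAt]
  intro x
  obtain ⟨q, rfl⟩ := h.bij.2 x
  cases q with
  | iso o n =>
    have h1 := (isOpen_singleton_iff_nhds_eq_pure _).1 (h.io o n)
    unfold ContinuousAt
    rw [h1]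
    exact (Filter.tendsto_pure_pure e _).mono_right (pure_le_nhds _)
  | lim v n =>
    intro U hU
    obtain ⟨O, hO, hO1, hO2⟩ := mem_nhds_iff.1 hU
    rw [he] at hO2
    have hF : (Ψ' '' {q | inN v n q} \ O).Finite := by
      refine fin_io ((h'.nb v n).cl.isClosed.sdiff hO1) fun x hx => ?_
      by_contra hcon
      have h1 := (h'.nb v n).uni x hx.1 hcon
      subst h1
      exact hx.2 hO2
    show e ⁻¹' U ∈ nhds _
    refine Filter.mem_of_superset (((h.nb v n).cl.isOpen.sdiff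
      (hF.preimage hinj.injOn).isClosed).mem_nhds
      ⟨(h.nb v n).mem, fun h1 => ?_⟩) fun x hx => ?_
    · rw [mem_preimage, he] at h1
      exact h1.2 hO2
    · apply hO
      by_contra hcon
      exact hx.2 ⟨(him v n x).1 hx.1, hcon⟩
  | inf =>
    intro U hU
    obtain ⟨O, hO, hO1, hO2⟩ := mem_nhds_iff.1 hU
    rw [he] at hO2
    obtain ⟨s, h1, h2⟩ := cover (ι := V × ℤ) (N := fun i => Ψ' '' {q | inN i.1 i.2 q})
      hO1.isClosed_compl (fun i => (h'.nb i.1 i.2).cl.isOpen) (fun x hx => by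
        obtain ⟨q, rfl⟩ := h'.bij.2 x
        cases q with
        | inf => exact (hx hO2).elim
        | lim v n => exact Or.inr ⟨(v, n), (h'.nb v n).mem⟩
        | iso o n => exact Or.inl (h'.io o n))
    have hC : IsClosed (⋃ i ∈ s, Ψ '' {q | inN i.1 i.2 q}) :=
      s.finite_toSet.isClosed_biUnion fun i _ => (h.nb i.1 i.2).cl.isClosed
    show e ⁻¹' U ∈ nhds _
    refine Filter.mem_of_superset ((hC.isOpen_compl.sdiff
      (h1.preimage hinj.injOn).isClosed).mem_nhds ⟨fun h3 => ?_, fun h3 => ?_⟩) fun x hx => ?_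
    · simp only [mem_iUnion] at h3
      obtain ⟨i, -, q, hq, h4⟩ := h3
      have := h.bij.1 h4
      subst this
      exact hq
    · rw [mem_preimage, he] at h3
      exact h3.1 hO2
    · apply hO
      by_contra hcon
      refine hx.2 ⟨hcon, fun h3 => hx.1 ?_⟩
      simp only [mem_iUnion] at h3 ⊢
      obtain ⟨i, hi, h4⟩ := h3
      exact ⟨i, hi, (him i.1 i.2 x).2 h4⟩

theorem Chart.homeo {Ψ : Pt V R T → Z} {Ψ' : Pt V R T → W} (h : Chart Ψ) (h' : Chart Ψ') :
    ∃ e : Z ≃ₜ W, ∀ q, e (Ψ q) = Ψ' q := by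
  let e : Z ≃ W := (Equiv.ofBijective Ψ h.bij).symm.trans (Equiv.ofBijective Ψ' h'.bij)
  have he : ∀ q, e (Ψ q) = Ψ' q := by
    intro q
    show Ψ' ((Equiv.ofBijective Ψ h.bij).symm (Ψ q)) = Ψ' q
    rw [Equiv.ofBijective_symm_apply_apply]
  exact ⟨Continuous.homeoOfEquivCompactToT2 (h.cont h' he), he⟩

end

section

variable {Z : Type} [TopologicalSpace Z]

/-- `p` is the only point which is isolated in no level -/
structure Om (p : Z) : Prop where
  nbs : ∀ x, x ≠ p → ¬ Io x → ∃ A, Nb A x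
  inf : {x : Z | ¬ Io x}.Infinite

theorem Om.no [CompactSpace Z] {p : Z} (h : Om p) {A : Set Z} (hA : Nb A p) : False := by
  have h0 : ∀ x : {x : Z // ¬ Io x ∧ x ≠ p}, ∃ B, Nb B x.1 := fun x => h.nbs x.1 x.2.2 x.2.1
  choose B hB using h0
  obtain ⟨s, h1, h2⟩ := cover (ι := {x : Z // ¬ Io x ∧ x ≠ p}) (N := B) (C := Aᶜ)
    hA.cl.isOpen.isClosed_compl (fun i => (hB i).cl.isOpen) (fun x hx => by
      by_cases hi : Io x
      · exact Or.inl hi
      · exact Or.inr ⟨⟨x, hi, fun h3 => hx (h3 ▸ hA.mem)⟩, (hB _).mem⟩)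
  refine h.inf (((s.finite_toSet.image Subtype.val).insert p).subset fun x hx => ?_)
  by_cases hxp : x = p
  · exact Or.inl hxp
  · right
    have hxA : x ∈ Aᶜ := hA.notMem hx hxp
    by_cases h3 : x ∈ ⋃ i ∈ s, B i
    · simp only [mem_iUnion] at h3
      obtain ⟨i, hi, h4⟩ := h3
      exact ⟨i, hi, ((hB i).uni x h4 hx).symm⟩
    · exact (hx (h2 x ⟨hxA, h3⟩)).elim

theorem Om.lim [CompactSpace Z] {p : Z} (h : Om p) : ¬ Io p := by
  intro hp
  have h0 : ∀ x : {x : Z // ¬ Io x ∧ x ≠ p}, ∃ B, Nb B x.1 := fun x => h.nbs x.1 x.2.2 x.2.1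
  choose B hB using h0
  obtain ⟨s, h1, h2⟩ := cover (ι := {x : Z // ¬ Io x ∧ x ≠ p}) (N := B) (C := univ)
    isClosed_univ (fun i => (hB i).cl.isOpen) (fun x _ => by
      by_cases hi : Io x
      · exact Or.inl hi
      · exact Or.inr ⟨⟨x, hi, fun h3 => hi (h3 ▸ hp)⟩, (hB _).mem⟩)
  refine h.inf ((s.finite_toSet.image Subtype.val).subset fun x hx => ?_)
  by_cases h3 : x ∈ ⋃ i ∈ s, B i
  · simp only [mem_iUnion] at h3
    obtain ⟨i, hi, h4⟩ := h3
    exact ⟨i, hi, ((hB i).uni x h4 hx).symm⟩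
  · exact (hx (h2 x ⟨trivial, h3⟩)).elim

theorem Om.fix [CompactSpace Z] {p : Z} (h : Om p) (g : Z ≃ₜ Z) : g p = p := by
  by_contra hcon
  have h1 : ¬ Io (g p) := fun h2 => h.lim ((io_map g p).1 h2)
  obtain ⟨A, hA⟩ := h.nbs _ hcon h1
  have h2 := hA.map g.symm
  rw [g.symm_apply_apply] at h2
  exact h.no h2

theorem Om.fixit [CompactSpace Z] {p : Z} (h : Om p) (f : Z ≃ₜ Z) (k : ℤ) : it f k p = p :=
  h.fix (f ^ k)

/-- marked systems -/
structure Mk (p : Z) (f : Z ≃ₜ Z) (V : Type) (R : V → V → Prop) (T : V → V → ℕ) where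
  Ψ : Pt V R T → Z
  ch : Chart Ψ
  eq : ∀ q, f (Ψ q) = Ψ (sh 1 q)
  pt : Ψ .inf = p

theorem Mk.eq' {p : Z} {f : Z ≃ₜ Z} (M : Mk p f V R T) (k : ℤ) (q : Pt V R T) :
    it f k (M.Ψ q) = M.Ψ (sh k q) := by
  have h1 : ∀ q, it f 1 (M.Ψ q) = M.Ψ (sh 1 q) := fun q => by rw [it_one, M.eq]
  have h2 : ∀ q, it f (-1) (M.Ψ q) = M.Ψ (sh (-1) q) := fun q => by
    rw [it_eq, neg_neg, h1, sh_neg']
  induction k using Int.induction_on generalizing q with
  | zero => rw [it_zero, sh_zero]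
  | succ n ih => rw [it_add, h1, ih, ← sh_add]
  | pred n ih => rw [sub_eq_add_neg, it_add, h2, ih, ← sh_add]

theorem Mk.conj {W : Type} [TopologicalSpace W] [CompactSpace Z] [T2Space Z]
    [CompactSpace W] [T2Space W] {p : Z} {p' : W} {f : Z ≃ₜ Z} {g : W ≃ₜ W}
    (M : Mk p f V R T) (N : Mk p' g V R T) : ∃ h : Z ≃ₜ W, ∀ x, h (f x) = g (h x) := by
  obtain ⟨e, he⟩ := M.ch.homeo N.ch
  refine ⟨e, fun x => ?_⟩
  obtain ⟨q, rfl⟩ := M.ch.bij.2 x
  rw [M.eq, he, he, N.eq]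

theorem Chart.comp {W : Type} [TopologicalSpace W] {Ψ : Pt V R T → Z} (h : Chart Ψ) (e : Z ≃ₜ W) :
    Chart (fun q => e (Ψ q)) where
  bij := e.bijective.comp h.bij
  io := fun o n => (io_map e _).2 (h.io o n)
  nb := fun v n => by
    have := (h.nb v n).map e
    rwa [image_image] at this

/-- transport of a marking -/
def Mk.transport [CompactSpace Z] {p : Z} (hp : Om p) {f g : Z ≃ₜ Z} (M : Mk p f V R T)
    (h : Z ≃ₜ Z) (hh : ∀ x, h (f x) = g (h x)) : Mk p g V R T where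
  Ψ := fun q => h (M.Ψ q)
  ch := M.ch.comp h
  eq := fun q => by rw [← hh, M.eq]
  pt := by rw [M.pt, hp.fix]

end

end Pool.Agent.H642.CK
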