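import Pool.Agent.H642.CK.Gd

set_option autoImplicit false
set_option linter.unusedSectionVars false
set_option linter.unusedVariables false

/-! Choice of disjoint neighbourhoods: one step. -/

namespace Pool.Agent.H642.CK

open Set TopologicalSpace
open Pool.Agent.H642.CH (it it_zero it_one it_add it_neg it_neg' it_cont)

section

variable {Z : Type} [TopologicalSpace Z] [CompactSpace Z] [T2Space Z] [Countable Z]
  {p : Z} {f : Z ≃ₜ Z}

theorem Good.fin' (G : Good p f) {A : Set Z} {y : Z} (hA : Nb A y) {z : Z} (hz : Io z) :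
    {n : ℤ | it f n z ∈ A}.Finite := G.fin ⟨A, hA.cl⟩ y hA z hz

theorem Good.orbFin (G : Good p f) {A : Set Z} {y : Z} (hA : Nb A y) {D : Set Z}
    (hD : D.Finite) (hi : ∀ d ∈ D, Io d) : {z | z ∈ A ∧ ∃ s : ℤ, it f s z ∈ D}.Finite := by
  have h1 : {z | z ∈ A ∧ ∃ s : ℤ, it f s z ∈ D} ⊆
      ⋃ d ∈ D, (fun k : ℤ => it f k d) '' {k : ℤ | it f k d ∈ A} := by
    rintro z ⟨h2, s, h3⟩
    simp only [mem_iUnion]
    refine ⟨_, h3, -s, ?_, ?_⟩
    · show it f (-s) (it f s z) ∈ A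
      rwa [it_neg]
    · show it f (-s) (it f s z) = z
      rw [it_neg]
  exact (hD.biUnion fun d hd => (G.fin' hA (hi d hd)).image _).subset h1

theorem Good.selfFin (G : Good p f) {A : Set Z} {y : Z} (hA : Nb A y) (hy : y ≠ p) :
    {z | z ∈ A ∧ Io z ∧ ∃ t : ℤ, t ≠ 0 ∧ it f t z ∈ A}.Finite := by
  have h1 := G.slf ⟨A, hA.cl⟩ y hA
  have h2 : {z | z ∈ A ∧ Io z ∧ ∃ t : ℤ, t ≠ 0 ∧ it f t z ∈ A} ⊆
      ⋃ t ∈ {t : ℤ | t ≠ 0 ∧ ∃ z, z ∈ A ∧ Io z ∧ it f t z ∈ A}, {z | z ∈ A ∧ it f t z ∈ A} := by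
    rintro z ⟨k1, k2, t, k3, k4⟩
    exact mem_biUnion (⟨k3, z, k1, k2, k4⟩ : t ∈ {t : ℤ | t ≠ 0 ∧ ∃ z, z ∈ A ∧ Io z ∧ it f t z ∈ A})
      (⟨k1, k4⟩ : z ∈ {z | z ∈ A ∧ it f t z ∈ A})
  exact (h1.biUnion fun t ht => hA.pass hA (G.per y hA.lim hy t ht.1)).subset h2

/-- isolated points are not periodic -/
theorem Good.nper (G : Good p f) (hp : Om p) {z : Z} (hz : Io z) {t : ℤ} (ht : t ≠ 0) :
    it f t z ≠ z := by
  intro h
  obtain ⟨x, hx, hxp⟩ := hp.inf.exists_notMem_finite (finite_singleton p)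
  obtain ⟨A, hA⟩ := hp.nbs x hxp hx
  have hA' := hA.union (F := {z}) (finite_singleton z) (by rintro _ rfl; exact hz)
  have h1 := G.fin' hA' hz
  have h2 : ∀ k : ℤ, it f (k * t) z = z := by
    have h3 : ∀ n : ℕ, it f (n * t) z = z := by
      intro n
      induction n with
      | zero => simp [it_zero]
      | succ n ih =>
        have : ((n + 1 : ℕ) : ℤ) * t = t + n * t := by
          push_cast
          ring
        rw [this, it_add, ih, h]
    intro k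
    rcases le_total 0 k with hk | hk
    · obtain ⟨n, rfl⟩ := Int.eq_ofNat_of_zero_le hk
      exact h3 n
    · obtain ⟨n, hn⟩ := Int.eq_ofNat_of_zero_le (Int.neg_nonneg_of_nonpos hk)
      rw [it_eq]
      have : -(k * t) = n * t := by
        rw [← hn]
        ring
      rw [this, h3]
  have h3 : (range fun k : ℤ => k * t).Infinite :=
    infinite_range_of_injective fun a b hab => mul_right_cancel₀ ht hab
  apply h3
  refine h1.subset ?_
  rintro _ ⟨k, rfl⟩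
  show it f (k * t) z ∈ A ∪ {z}
  rw [h2]
  exact Or.inr rfl

/-- representatives of the orbits of the limit points, and the graph -/
structure Reps (p : Z) (f : Z ≃ₜ Z) (y : ℕ → Z) (R : ℕ → ℕ → Prop) : Prop where
  lim : ∀ i, ¬ Io (y i)
  ne : ∀ i, y i ≠ p
  sep : ∀ i j, i ≠ j → ∀ k : ℤ, it f k (y i) ≠ y j
  cov : ∀ x, ¬ Io x → x ≠ p → ∃ i, ∃ k : ℤ, x = it f k (y i)
  rel : ∀ i j, i ≠ j → ∀ A B, Nb A (y i) → Nb B (y j) → (Rel f A B ↔ R i j)
  irr : ∀ i, ¬ R i i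

variable {y : ℕ → Z} {R : ℕ → ℕ → Prop}

/-- points passing near two limit points are isolated -/
theorem Reps.io (Y : Reps p f y R) {i j : ℕ} (hij : i ≠ j) {A B : Set Z} (hA : Nb A (y i))
    (hB : Nb B (y j)) {z : Z} {t : ℤ} (h1 : z ∈ A) (h2 : it f t z ∈ B) : Io z := by
  by_contra hcon
  have h3 := hA.uni z h1 hcon
  subst h3
  exact Y.sep i j hij t (hB.uni _ h2 fun h => hcon ((io_it f t _).1 h))

theorem bound (G : Good p f) (Y : Reps p f y R) {i j : ℕ} (hij : i ≠ j) {A B : Set Z}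
    (hA : Nb A (y i)) (hB : Nb B (y j)) : ∃ b : ℕ, ∀ t : ℕ, b ≤ t →
      (R i j → ∃ z ∈ A, it f t z ∈ B) ∧
      (∀ z ∈ A, ∀ z' ∈ A, it f t z ∈ B → it f t z' ∈ B → z = z') ∧
      (¬ R i j → ∀ z ∈ A, it f t z ∉ B) := by
  by_cases hR : R i j
  · obtain ⟨b, hb⟩ := G.one ⟨A, hA.cl⟩ ⟨B, hB.cl⟩ _ _ hA hB (Y.sep i j hij)
      ((Y.rel i j hij A B hA hB).2 hR)
    refine ⟨b, fun t ht => ?_⟩
    obtain ⟨z, ⟨h1, h2, h3⟩, h4⟩ := hb t ht
    refine ⟨fun _ => ⟨z, h1, h3⟩, fun z1 k1 z2 k2 k3 k4 => ?_, fun h => (h hR).elim⟩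
    rw [h4 z1 ⟨k1, Y.io hij hA hB k1 k3, k3⟩, h4 z2 ⟨k2, Y.io hij hA hB k2 k4, k4⟩]
  · have h1 : ¬ Rel f A B := fun h => hR ((Y.rel i j hij A B hA hB).1 h)
    unfold Rel at h1
    rw [not_infinite] at h1
    obtain ⟨b, hb⟩ := h1.bddAbove
    have h2 : ∀ t : ℕ, b + 1 ≤ t → ∀ z ∈ A, it f t z ∉ B := by
      intro t ht z k1 k2
      have := hb ⟨z, k1, Y.io hij hA hB k1 k2, k2⟩
      omega
    exact ⟨b + 1, fun t ht => ⟨fun h => (hR h).elim,
      fun z k1 z' k2 k3 k4 => (h2 t ht z k1 k3).elim, fun _ => h2 t ht⟩⟩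

/-- valid choices of the first `j` neighbourhoods, with reserved pendants `P` -/
structure Vd (f : Z ≃ₜ Z) (y : ℕ → Z) (R : ℕ → ℕ → Prop) (j : ℕ) (N : ℕ → Set Z) (P : Set Z)
    (τ : ℕ → ℕ) : Prop where
  nb : ∀ i < j, Nb (N i) (y i)
  slf : ∀ i < j, ∀ z ∈ N i, Io z → ∀ t : ℤ, t ≠ 0 → it f t z ∉ N i
  low : ∀ i < j, ∀ i' < j, i ≠ i' → ∀ z ∈ N i, ∀ t : ℤ, it f t z ∈ N i' →
    (τ (max i i') : ℤ) ≤ |t|
  one : ∀ i < j, ∀ i' < j, i ≠ i' → R i i' → ∀ t : ℕ, τ (max i i') ≤ t →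
    ∃ z ∈ N i, it f t z ∈ N i'
  uni : ∀ i < j, ∀ i' < j, i ≠ i' → ∀ t : ℕ, τ (max i i') ≤ t → ∀ z ∈ N i, ∀ z' ∈ N i,
    it f t z ∈ N i' → it f t z' ∈ N i' → z = z'
  non : ∀ i < j, ∀ i' < j, i ≠ i' → ¬ R i i' → ∀ t : ℕ, ∀ z ∈ N i, it f t z ∉ N i'
  tri : ∀ i < j, ∀ i' < j, ∀ i'' < j, i ≠ i' → i ≠ i'' → i' ≠ i'' → ∀ z ∈ N i, ∀ s : ℤ,
    it f s z ∈ N i' → ∀ s' : ℤ, it f s' z ∉ N i''
  pos : ∀ i < j, 1 ≤ τ i
  pf : P.Finite
  pi : ∀ z ∈ P, Io z
  pn : ∀ z ∈ P, ∃ i < j, z ∈ N i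
  po : ∀ z ∈ P, ∀ i < j, z ∈ N i → ∀ i' < j, i' ≠ i → ∀ t : ℤ, it f t z ∉ N i'

theorem step (hp : Om p) (G : Good p f) (Y : Reps p f y R) {j : ℕ} {N : ℕ → Set Z} {P : Set Z}
    {τ : ℕ → ℕ} (H : Vd f y R j N P τ) (e : Z) (i0 : ℕ) :
    ∃ b : ℕ, ∀ t0 : ℕ, b ≤ t0 → ∃ (A P' : Set Z),
      Vd f y R (j + 1) (Function.update N j A) P' (Function.update τ j t0) ∧ P ⊆ P' ∧
      (i0 < j + 1 → ∃ z ∈ P', z ∉ P ∧ z ∈ Function.update N j A i0) ∧
      (Io e → ∃ i < j + 1, ∃ t : ℤ, it f t e ∈ Function.update N j A i) := by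
  classical
  obtain ⟨A0, hA0⟩ := hp.nbs (y j) (Y.ne j) (Y.lim j)
  let Ad : Set Z := {x | x = e ∧ Io e ∧ ∀ i < j, ∀ t : ℤ, it f t e ∉ N i}
  have hAdf : Ad.Finite := (finite_singleton e).subset fun x hx => hx.1
  have hAdi : ∀ x ∈ Ad, Io x := by
    rintro x ⟨rfl, h, -⟩
    exact h
  let Bad : Set Z := {z | z ∈ A0 ∧ ∃ s : ℤ, it f s z ∈ P} ∪
    ({z | z ∈ A0 ∧ ∃ s : ℤ, it f s z ∈ Ad} ∪
    ({z | z ∈ A0 ∧ Io z ∧ ∃ t : ℤ, t ≠ 0 ∧ it f t z ∈ A0} ∪
    ⋃ i ∈ Finset.range j, ⋃ i' ∈ Finset.range j, {z | i ≠ i' ∧ z ∈ A0 ∧ Io z ∧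
      (∃ s : ℤ, it f s z ∈ N i) ∧ ∃ s : ℤ, it f s z ∈ N i'}))
  have hBf : Bad.Finite := by
    refine (G.orbFin hA0 H.pf H.pi).union ((G.orbFin hA0 hAdf hAdi).union
      ((G.selfFin hA0 (Y.ne j)).union ?_))
    refine (Finset.finite_toSet _).biUnion fun i hi => (Finset.finite_toSet _).biUnion
      fun i' hi' => ?_
    have hi1 : i < j := Finset.mem_range.1 hi
    have hi2 : i' < j := Finset.mem_range.1 hi'
    by_cases hne : i = i'
    · refine finite_empty.subset fun z hz => (hz.1 hne).elim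
    · refine (G.tri ⟨A0, hA0.cl⟩ ⟨N i, (H.nb i hi1).cl⟩ ⟨N i', (H.nb i' hi2).cl⟩ _ _ _ hA0
        (H.nb i hi1) (H.nb i' hi2) (Y.sep _ _ (by omega)) (Y.sep _ _ (by omega))
        (Y.sep _ _ hne)).subset fun z hz => hz.2
  have hBi : ∀ x ∈ Bad, Io x := by
    rintro x (⟨-, s, h⟩ | ⟨-, s, h⟩ | ⟨-, h, -⟩ | h)
    · exact (io_it f s x).1 (H.pi _ h)
    · exact (io_it f s x).1 (hAdi _ h)
    · exact h
    · simp only [mem_iUnion] at h
      obtain ⟨i, -, i', -, -, -, h, -⟩ := h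
      exact h
  let A1 : Set Z := (A0 \ Bad) ∪ Ad
  have hA1 : Nb A1 (y j) := (hA0.sdiff hBf hBi).union hAdf hAdi
  have c1 : ∀ w ∈ A1, ∀ i < j, ∀ i' < j, i ≠ i' → ∀ s s' : ℤ, it f s w ∈ N i →
      it f s' w ∉ N i' := by
    rintro w (hw | hw) i hi i' hi' hne s s' h1 h2
    · apply hw.2
      refine Or.inr (Or.inr (Or.inr ?_))
      simp only [mem_iUnion]
      refine ⟨i, Finset.mem_range.2 hi, i', Finset.mem_range.2 hi', hne, hw.1, ?_, ⟨s, h1⟩,
        ⟨s', h2⟩⟩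
      by_contra hcon
      have h3 := hA0.uni w hw.1 hcon
      subst h3
      exact Y.sep j i (by omega) s ((H.nb i hi).uni _ h1 fun h => hcon ((io_it f s _).1 h))
    · obtain ⟨rfl, h3, h4⟩ := hw
      exact h4 i hi s h1
  have c2 : ∀ w ∈ A1, Io w → ∀ t : ℤ, t ≠ 0 → it f t w ∉ A1 := by
    rintro w (hw | hw) hi t ht (h1 | h1)
    · exact hw.2 (Or.inr (Or.inr (Or.inl ⟨hw.1, hi, t, ht, h1.1⟩)))
    · exact hw.2 (Or.inr (Or.inl ⟨hw.1, t, h1⟩))
    · refine h1.2 (Or.inr (Or.inl ⟨h1.1, -t, ?_⟩))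
      rw [it_neg]
      exact hw
    · obtain ⟨rfl, -, -⟩ := hw
      exact G.nper hp hi ht h1.1
  have c3 : ∀ z ∈ P, ∀ t : ℤ, it f t z ∉ A1 := by
    rintro z hz t (h1 | h1)
    · refine h1.2 (Or.inl ⟨h1.1, -t, ?_⟩)
      rwa [it_neg]
    · obtain ⟨h2, h3, h4⟩ := h1
      obtain ⟨i, hi, h5⟩ := H.pn z hz
      apply h4 i hi (-t)
      rw [← h2, it_neg]
      exact h5
  have hb1 : ∀ i : ℕ, ∃ b : ℕ, i < j → ∀ t : ℕ, b ≤ t →
      (R i j → ∃ z ∈ N i, it f t z ∈ A1) ∧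
      (∀ z ∈ N i, ∀ z' ∈ N i, it f t z ∈ A1 → it f t z' ∈ A1 → z = z') ∧
      (¬ R i j → ∀ z ∈ N i, it f t z ∉ A1) := by
    intro i
    by_cases hi : i < j
    · obtain ⟨b, hb⟩ := bound G Y (i := i) (j := j) (by omega) (H.nb i hi) hA1
      exact ⟨b, fun _ => hb⟩
    · exact ⟨0, fun h => (hi h).elim⟩
  have hb2 : ∀ i : ℕ, ∃ b : ℕ, i < j → ∀ t : ℕ, b ≤ t →
      (R j i → ∃ z ∈ A1, it f t z ∈ N i) ∧
      (∀ z ∈ A1, ∀ z' ∈ A1, it f t z ∈ N i → it f t z' ∈ N i → z = z') ∧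
      (¬ R j i → ∀ z ∈ A1, it f t z ∉ N i) := by
    intro i
    by_cases hi : i < j
    · obtain ⟨b, hb⟩ := bound G Y (i := j) (j := i) (by omega) hA1 (H.nb i hi)
      exact ⟨b, fun _ => hb⟩
    · exact ⟨0, fun h => (hi h).elim⟩
  choose b1 hb1 using hb1
  choose b2 hb2 using hb2
  refine ⟨(Finset.range j).sup (fun i => max (b1 i) (b2 i)) + 1, fun t0 ht0 => ?_⟩
  have hbb : ∀ i < j, b1 i ≤ t0 ∧ b2 i ≤ t0 := by
    intro i hi
    have h1 : max (b1 i) (b2 i) ≤ (Finset.range j).sup (fun i => max (b1 i) (b2 i)) :=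
      Finset.le_sup (f := fun i => max (b1 i) (b2 i)) (Finset.mem_range.2 hi)
    have h2 := le_max_left (b1 i) (b2 i)
    have h3 := le_max_right (b1 i) (b2 i)
    omega
  let Lw : Set Z := ⋃ i ∈ Finset.range j, ⋃ t ∈ Finset.Icc (-(t0 : ℤ)) t0,
    {w | |t| < t0 ∧ w ∈ A1 ∧ it f t w ∈ N i}
  have hLf : Lw.Finite := by
    refine (Finset.finite_toSet _).biUnion fun i hi => (Finset.finite_toSet _).biUnion
      fun t _ => ?_
    have hi1 : i < j := Finset.mem_range.1 hi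
    exact (hA1.pass (H.nb i hi1) (Y.sep _ _ (by omega) t)).subset fun w hw => hw.2
  have hLm : ∀ w, w ∈ Lw ↔ w ∈ A1 ∧ ∃ i < j, ∃ t : ℤ, |t| < t0 ∧ it f t w ∈ N i := by
    intro w
    simp only [Lw, mem_iUnion]
    constructor
    · rintro ⟨i, hi, t, ht, h1, h2, h3⟩
      exact ⟨h2, i, Finset.mem_range.1 hi, t, h1, h3⟩
    · rintro ⟨h2, i, hi, t, h1, h3⟩
      refine ⟨i, Finset.mem_range.2 hi, t, ?_, h1, h2, h3⟩
      rw [Finset.mem_Icc]
      have := abs_lt.1 h1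
      omega
  have hLi : ∀ x ∈ Lw, Io x := by
    intro x hx
    obtain ⟨h1, i, hi, t, -, h2⟩ := (hLm x).1 hx
    exact Y.io (i := j) (j := i) (by omega) hA1 (H.nb i hi) h1 h2
  let A : Set Z := A1 \ Lw
  have hA : Nb A (y j) := hA1.sdiff hLf hLi
  have hAA : ∀ w ∈ A, w ∈ A1 := fun w hw => hw.1
  -- old passages survive
  have d1 : ∀ i < j, ∀ t : ℕ, t0 ≤ t → ∀ z ∈ N i, it f t z ∈ A1 → it f t z ∈ A := by
    intro i hi t ht z hz h1
    refine ⟨h1, fun h2 => ?_⟩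
    obtain ⟨-, i2, hi2, t2, h3, h4⟩ := (hLm _).1 h2
    by_cases hii : i2 = i
    · subst hii
      have h5 : Io z := Y.io (i := i2) (j := j) (by omega) (H.nb i2 hi) hA1 hz h1
      refine H.slf i2 hi z hz h5 (t2 + t) ?_ (by rw [it_add]; exact h4)
      have := abs_lt.1 h3
      omega
    · refine c1 _ h1 i hi i2 hi2 (fun h => hii h.symm) (-t) t2 ?_ h4
      rwa [it_neg]
  have d2 : ∀ i < j, ∀ t : ℕ, t0 ≤ t → ∀ z ∈ A1, it f t z ∈ N i → z ∈ A := by
    intro i hi t ht z hz h1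
    refine ⟨hz, fun h2 => ?_⟩
    obtain ⟨-, i2, hi2, t2, h3, h4⟩ := (hLm _).1 h2
    by_cases hii : i2 = i
    · subst hii
      have h5 : Io z := Y.io (i := j) (j := i2) (by omega) hA1 (H.nb i2 hi) hz h1
      refine H.slf i2 hi _ h1 ((io_it f _ z).2 h5) (t2 - t) ?_ ?_
      · have := abs_lt.1 h3
        omega
      · rw [it_it, sub_add_cancel]
        exact h4
    · exact c1 _ hz i hi i2 hi2 (fun h => hii h.symm) t t2 h1 h4
  have d3 : ∀ i < j, ∀ z ∈ A, ∀ t : ℤ, it f t z ∈ N i → (t0 : ℤ) ≤ |t| := by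
    intro i hi z hz t h1
    by_contra h2
    push Not at h2
    exact hz.2 ((hLm z).2 ⟨hz.1, i, hi, t, h2, h1⟩)
  have d4 : ∀ i < j, ∀ z ∈ N i, ∀ t : ℤ, it f t z ∈ A → (t0 : ℤ) ≤ |t| := by
    intro i hi z hz t h1
    have := d3 i hi _ h1 (-t) (by rwa [it_neg])
    rwa [abs_neg] at this
  have uN : ∀ i, i < j → Function.update N j A i = N i := fun i hi =>
    Function.update_of_ne (by omega) _ _
  have uj : Function.update N j A j = A := Function.update_self _ _ _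
  have uT : ∀ i, i < j → Function.update τ j t0 i = τ i := fun i hi =>
    Function.update_of_ne (by omega) _ _
  have uTj : Function.update τ j t0 j = t0 := Function.update_self _ _ _
  have spl : ∀ i, i < j + 1 → i < j ∨ i = j := fun i hi => by omega
  have hnb : ∀ i < j + 1, Nb (Function.update N j A i) (y i) := by
    intro i hi
    rcases spl i hi with h | rfl
    · rw [uN i h]
      exact H.nb i h
    · rw [uj]
      exact hA
  -- the new reserved point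
  have hres : ∃ Q : Set Z, Q.Finite ∧ (i0 < j + 1 → ∃ z ∈ Q, z ∉ P ∧
      z ∈ Function.update N j A i0) ∧ ∀ z ∈ Q, Io z ∧ ∃ i < j + 1,
      z ∈ Function.update N j A i ∧ ∀ i' < j + 1, i' ≠ i → ∀ t : ℤ,
        it f t z ∉ Function.update N j A i' := by
    by_cases hi0 : i0 < j + 1
    · let B : Set Z := ⋃ i ∈ (Finset.range (j + 1)).filter (fun i => i ≠ i0),
        Function.update N j A i
      have hB : IsClopen B := by
        refine (Finset.finite_toSet _).isClopen_biUnion fun i hi => ?_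
        exact (hnb i (Finset.mem_range.1 (Finset.mem_filter.1 hi).1)).cl
      have hmB : ∀ x, x ∈ B ↔ ∃ i < j + 1, i ≠ i0 ∧ x ∈ Function.update N j A i := by
        intro x
        simp only [B, mem_iUnion, Finset.mem_filter, Finset.mem_range]
        constructor
        · rintro ⟨i, ⟨h1, h2⟩, h3⟩
          exact ⟨i, h1, h2, h3⟩
        · rintro ⟨i, h1, h2, h3⟩
          exact ⟨i, ⟨h1, h2⟩, h3⟩
      have h1 := G.pnd ⟨_, (hnb i0 hi0).cl⟩ ⟨B, hB⟩ _ (hnb i0 hi0)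
        (fun h => by
          obtain ⟨i, hi, -, h2⟩ := (hmB p).1 h
          exact Y.ne i ((hnb i hi).uni p h2 hp.lim).symm)
        (fun k h => by
          obtain ⟨i, hi, hne, h2⟩ := (hmB _).1 h
          exact Y.sep i0 i hne.symm k ((hnb i hi).uni _ h2
            fun h3 => Y.lim i0 ((io_it f k _).1 h3)))
      obtain ⟨z, ⟨k1, k2, k3⟩, k4⟩ := h1.exists_notMem_finite H.pf
      refine ⟨{z}, finite_singleton z, fun _ => ⟨z, rfl, k4, k1⟩, ?_⟩
      rintro _ rfl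
      refine ⟨k2, i0, hi0, k1, fun i' hi' hne t h2 => ?_⟩
      exact k3 t ((hmB _).2 ⟨i', hi', hne, h2⟩)
    · exact ⟨∅, finite_empty, fun h => (hi0 h).elim, fun z hz => hz.elim⟩
  obtain ⟨Q, hQ1, hQ2, hQ3⟩ := hres
  refine ⟨A, P ∪ Q, ?_, subset_union_left, fun h => ?_, fun he => ?_⟩
  · refine ⟨hnb, ?_, ?_, ?_, ?_, ?_, ?_, ?_, H.pf.union hQ1, ?_, ?_, ?_⟩
    · intro i hi
      rcases spl i hi with h | rfl
      · rw [uN i h]
        exact H.slf i h
      · rw [uj]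
        intro z hz hzi t ht h1
        exact c2 z (hAA z hz) hzi t ht (hAA _ h1)
    · intro i hi i' hi' hne z hz t h1
      rcases spl i hi with h | rfl <;> rcases spl i' hi' with h' | rfl
      · rw [uN i h] at hz
        rw [uN i' h'] at h1
        rw [uT _ (by omega)]
        exact H.low i h i' h' hne z hz t h1
      · rw [uN i h] at hz
        rw [uj] at h1
        rw [max_eq_right h.le, uTj]
        exact d4 i h z hz t h1
      · rw [uj] at hz
        rw [uN i' h'] at h1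
        rw [max_eq_left h'.le, uTj]
        exact d3 i' h' z hz t h1
      · exact (hne rfl).elim
    · intro i hi i' hi' hne hR t ht
      rcases spl i hi with h | rfl <;> rcases spl i' hi' with h' | rfl
      · rw [uT _ (by omega)] at ht
        rw [uN i h, uN i' h']
        exact H.one i h i' h' hne hR t ht
      · rw [max_eq_right h.le, uTj] at ht
        rw [uN i h, uj]
        obtain ⟨z, h1, h2⟩ := (hb1 i h t ((hbb i h).1.trans ht)).1 hR
        exact ⟨z, h1, d1 i h t ht z h1 h2⟩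
      · rw [max_eq_left h'.le, uTj] at ht
        rw [uN i' h', uj]
        obtain ⟨z, h1, h2⟩ := (hb2 i' h' t ((hbb i' h').2.trans ht)).1 hR
        exact ⟨z, d2 i' h' t ht z h1 h2, h2⟩
      · exact (hne rfl).elim
    · intro i hi i' hi' hne t ht z hz z' hz' h1 h2
      rcases spl i hi with h | rfl <;> rcases spl i' hi' with h' | rfl
      · rw [uT _ (by omega)] at ht
        rw [uN i h] at hz hz'
        rw [uN i' h'] at h1 h2
        exact H.uni i h i' h' hne t ht z hz z' hz' h1 h2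
      · rw [max_eq_right h.le, uTj] at ht
        rw [uN i h] at hz hz'
        rw [uj] at h1 h2
        exact (hb1 i h t ((hbb i h).1.trans ht)).2.1 z hz z' hz' (hAA _ h1) (hAA _ h2)
      · rw [max_eq_left h'.le, uTj] at ht
        rw [uj] at hz hz'
        rw [uN i' h'] at h1 h2
        exact (hb2 i' h' t ((hbb i' h').2.trans ht)).2.1 z (hAA _ hz) z' (hAA _ hz') h1 h2
      · exact (hne rfl).elim
    · intro i hi i' hi' hne hR t z hz h1
      rcases spl i hi with h | rfl <;> rcases spl i' hi' with h' | rfl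
      · rw [uN i h] at hz
        rw [uN i' h'] at h1
        exact H.non i h i' h' hne hR t z hz h1
      · rw [uN i h] at hz
        rw [uj] at h1
        have h3 := d4 i h z hz t h1
        rw [Nat.abs_cast] at h3
        exact (hb1 i h t ((hbb i h).1.trans (by exact_mod_cast h3))).2.2 hR z hz (hAA _ h1)
      · rw [uj] at hz
        rw [uN i' h'] at h1
        have h3 := d3 i' h' z hz t h1
        rw [Nat.abs_cast] at h3
        exact (hb2 i' h' t ((hbb i' h').2.trans (by exact_mod_cast h3))).2.2 hR z (hAA _ hz) h1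
      · exact (hne rfl).elim
    · intro i hi i' hi' i'' hi'' n1 n2 n3 z hz s h1 s' h2
      rcases spl i hi with h | rfl <;> rcases spl i' hi' with h' | rfl <;>
        rcases spl i'' hi'' with h'' | rfl
      · rw [uN i h] at hz
        rw [uN i' h'] at h1
        rw [uN i'' h''] at h2
        exact H.tri i h i' h' i'' h'' n1 n2 n3 z hz s h1 s' h2
      · rw [uN i h] at hz
        rw [uN i' h'] at h1
        rw [uj] at h2
        refine c1 _ (hAA _ h2) i h i' h' n1 (-s') (s - s') ?_ ?_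
        · rwa [it_neg]
        · rw [it_it, sub_add_cancel]
          exact h1
      · rw [uN i h] at hz
        rw [uj] at h1
        rw [uN i'' h''] at h2
        refine c1 _ (hAA _ h1) i h i'' h'' n2 (-s) (s' - s) ?_ ?_
        · rwa [it_neg]
        · rw [it_it, sub_add_cancel]
          exact h2
      · exact (n3 rfl).elim
      · rw [uj] at hz
        rw [uN i' h'] at h1
        rw [uN i'' h''] at h2
        exact c1 _ (hAA _ hz) i' h' i'' h'' n3 s s' h1 h2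
      · exact (n2 rfl).elim
      · exact (n1 rfl).elim
      · exact (n1 rfl).elim
    · intro i hi
      rcases spl i hi with h | rfl
      · rw [uT i h]
        exact H.pos i h
      · rw [uTj]
        omega
    · rintro z (hz | hz)
      · exact H.pi z hz
      · exact (hQ3 z hz).1
    · rintro z (hz | hz)
      · obtain ⟨i, hi, h1⟩ := H.pn z hz
        refine ⟨i, by omega, ?_⟩
        rwa [uN i hi]
      · obtain ⟨-, i, hi, h1, -⟩ := hQ3 z hz
        exact ⟨i, hi, h1⟩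
    · rintro z (hz | hz) i hi h1 i' hi' hne t h2
      · rcases spl i hi with h | rfl
        · rw [uN i h] at h1
          rcases spl i' hi' with h' | rfl
          · rw [uN i' h'] at h2
            exact H.po z hz i h h1 i' h' hne t h2
          · rw [uj] at h2
            exact c3 z hz t (hAA _ h2)
        · rw [uj] at h1
          refine c3 z hz 0 ?_
          rw [it_zero]
          exact hAA _ h1
      · obtain ⟨-, i1, hi1, h3, h4⟩ := hQ3 z hz
        have h5 : i = i1 := by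
          by_contra hcon
          exact h4 i hi hcon 0 (by rwa [it_zero])
        subst h5
        exact h4 i' hi' hne t h2
  · obtain ⟨z, h1, h2, h3⟩ := hQ2 h
    exact ⟨z, Or.inr h1, h2, h3⟩
  · by_cases hfree : ∀ i < j, ∀ t : ℤ, it f t e ∉ N i
    · refine ⟨j, by omega, 0, ?_⟩
      rw [it_zero, uj]
      refine ⟨Or.inr ⟨rfl, he, hfree⟩, fun h1 => ?_⟩
      obtain ⟨-, i, hi, t, -, h2⟩ := (hLm e).1 h1
      exact hfree i hi t h2
    · push Not at hfree
      obtain ⟨i, hi, t, h1⟩ := hfree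
      refine ⟨i, by omega, t, ?_⟩
      rwa [uN i hi]

end

end Pool.Agent.H642.CK
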