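import Pool.Agent.H642.CK.RA

set_option autoImplicit false
set_option linter.unusedSectionVars false
set_option linter.unusedVariables false

/-! Choice of disjoint neighbourhoods: the recursion, for two homeomorphisms at once. -/

namespace Pool.Agent.H642.CK

open Set TopologicalSpace
open Pool.Agent.H642.CH (it it_zero it_one it_add it_neg it_neg' it_cont)

section

variable {Z : Type} [TopologicalSpace Z] [CompactSpace Z] [T2Space Z] [Countable Z]
  {p : Z} {f g : Z ≃ₜ Z}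

/-- valid choices of all the neighbourhoods -/
structure Fl (f : Z ≃ₜ Z) (y : ℕ → Z) (R : ℕ → ℕ → Prop) (N : ℕ → Set Z) (τ : ℕ → ℕ) :
    Prop where
  nb : ∀ i, Nb (N i) (y i)
  slf : ∀ i, ∀ z ∈ N i, Io z → ∀ t : ℤ, t ≠ 0 → it f t z ∉ N i
  low : ∀ i i', i ≠ i' → ∀ z ∈ N i, ∀ t : ℤ, it f t z ∈ N i' → (τ (max i i') : ℤ) ≤ |t|
  one : ∀ i i', i ≠ i' → R i i' → ∀ t : ℕ, τ (max i i') ≤ t → ∃ z ∈ N i, it f t z ∈ N i'
  uni : ∀ i i', i ≠ i' → ∀ t : ℕ, τ (max i i') ≤ t → ∀ z ∈ N i, ∀ z' ∈ N i,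
    it f t z ∈ N i' → it f t z' ∈ N i' → z = z'
  non : ∀ i i', i ≠ i' → ¬ R i i' → ∀ t : ℕ, ∀ z ∈ N i, it f t z ∉ N i'
  tri : ∀ i i' i'', i ≠ i' → i ≠ i'' → i' ≠ i'' → ∀ z ∈ N i, ∀ s : ℤ,
    it f s z ∈ N i' → ∀ s' : ℤ, it f s' z ∉ N i''
  pos : ∀ i, 1 ≤ τ i
  pnd : ∀ i, {z | z ∈ N i ∧ Io z ∧ ∀ i', i' ≠ i → ∀ t : ℤ, it f t z ∉ N i'}.Infinite
  abs : ∀ e, Io e → ∃ i, ∃ t : ℤ, it f t e ∈ N i

/-- the relation between consecutive stages -/
structure StR (f : Z ≃ₜ Z) (j : ℕ) (e : Z) (N : ℕ → Set Z) (P : Set Z) (N' : ℕ → Set Z)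
    (P' : Set Z) : Prop where
  eq : ∀ i, i ≠ j → N' i = N i
  sub : P ⊆ P'
  new : (Nat.unpair j).1 < j + 1 → ∃ z ∈ P', z ∉ P ∧ z ∈ N' (Nat.unpair j).1
  ab : Io e → ∃ i < j + 1, ∃ t : ℤ, it f t e ∈ N' i

theorem fl_of {y : ℕ → Z} {R : ℕ → ℕ → Prop} {ez : ℕ → Z} (hez : Function.Surjective ez)
    {Ns : ℕ → ℕ → Set Z} {Ps : ℕ → Set Z} {τs : ℕ → ℕ → ℕ}
    (hV : ∀ j, Vd f y R j (Ns j) (Ps j) (τs j))
    (hS : ∀ j, StR f j (ez j) (Ns j) (Ps j) (Ns (j + 1)) (Ps (j + 1)))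
    (hτ : ∀ j i, i ≠ j → τs (j + 1) i = τs j i) :
    Fl f y R (fun i => Ns (i + 1) i) (fun i => τs (i + 1) i) := by
  have eN : ∀ i j, i < j → Ns (i + 1) i = Ns j i := by
    intro i j hij
    induction j with
    | zero => omega
    | succ j ih =>
      rcases Nat.lt_or_ge i j with h | h
      · rw [ih h, (hS j).eq i (by omega)]
      · have : i = j := by omega
        rw [this]
  have eT : ∀ i j, i < j → τs (i + 1) i = τs j i := by
    intro i j hij
    induction j with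
    | zero => omega
    | succ j ih =>
      rcases Nat.lt_or_ge i j with h | h
      · rw [ih h, hτ j i (by omega)]
      · have : i = j := by omega
        rw [this]
  have eP : ∀ j k, j ≤ k → Ps j ⊆ Ps k := by
    intro j k hjk
    induction k with
    | zero =>
      have : j = 0 := by omega
      rw [this]
    | succ k ih =>
      rcases Nat.lt_or_ge j (k + 1) with h | h
      · exact (ih (by omega)).trans (hS k).sub
      · have : j = k + 1 := by omega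
        rw [this]
  refine ⟨fun i => (hV (i + 1)).nb i (by omega), fun i => (hV (i + 1)).slf i (by omega),
    fun i i' hne z hz t h1 => ?_, fun i i' hne hR t ht => ?_, fun i i' hne t ht z hz z' hz' h1 h2 =>
    ?_, fun i i' hne hR t z hz h1 => ?_, fun i i' i'' n1 n2 n3 z hz s h1 s' h2 => ?_,
    fun i => (hV (i + 1)).pos i (by omega), fun i => ?_, fun e he => ?_⟩
  · have h2 := eT (max i i') (i + i' + 1) (by omega)
    rw [eN i (i + i' + 1) (by omega)] at hz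
    rw [eN i' (i + i' + 1) (by omega)] at h1
    rw [h2]
    exact (hV (i + i' + 1)).low i (by omega) i' (by omega) hne z hz t h1
  · have h2 := eT (max i i') (i + i' + 1) (by omega)
    rw [eN i (i + i' + 1) (by omega), eN i' (i + i' + 1) (by omega)]
    exact (hV (i + i' + 1)).one i (by omega) i' (by omega) hne hR t (by rw [← h2]; exact ht)
  · have h3 := eT (max i i') (i + i' + 1) (by omega)
    rw [eN i (i + i' + 1) (by omega)] at hz hz'
    rw [eN i' (i + i' + 1) (by omega)] at h1 h2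
    exact (hV (i + i' + 1)).uni i (by omega) i' (by omega) hne t (by rw [← h3]; exact ht) z hz z'
      hz' h1 h2
  · rw [eN i (i + i' + 1) (by omega)] at hz
    rw [eN i' (i + i' + 1) (by omega)] at h1
    exact (hV (i + i' + 1)).non i (by omega) i' (by omega) hne hR t z hz h1
  · rw [eN i (i + i' + i'' + 1) (by omega)] at hz
    rw [eN i' (i + i' + i'' + 1) (by omega)] at h1
    rw [eN i'' (i + i' + i'' + 1) (by omega)] at h2
    exact (hV (i + i' + i'' + 1)).tri i (by omega) i' (by omega) i'' (by omega) n1 n2 n3 z hz s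
      h1 s' h2
  · intro hfin
    have hsub : {z | z ∈ Ns (i + 1) i ∧ ∃ j, z ∈ Ps j} ⊆
        {z | z ∈ Ns (i + 1) i ∧ Io z ∧ ∀ i', i' ≠ i → ∀ t : ℤ, it f t z ∉ Ns (i' + 1) i'} := by
      rintro z ⟨h1, j, hj⟩
      refine ⟨h1, (hV j).pi z hj, fun i' hne t h2 => ?_⟩
      rw [eN i (i + i' + j + 1) (by omega)] at h1
      rw [eN i' (i + i' + j + 1) (by omega)] at h2
      exact (hV (i + i' + j + 1)).po z (eP j _ (by omega) hj) i (by omega) h1 i' (by omega) hne t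
        h2
    have hfin2 := hfin.subset hsub
    have hJ : ∃ J, ∀ z ∈ {z | z ∈ Ns (i + 1) i ∧ ∃ j, z ∈ Ps j}, z ∈ Ps J := by
      choose! jj hjj using fun (z : Z) (hz : z ∈ {z | z ∈ Ns (i + 1) i ∧ ∃ j, z ∈ Ps j}) => hz.2
      obtain ⟨J, hJ⟩ := (hfin2.image jj).bddAbove
      exact ⟨J, fun z hz => eP _ _ (hJ ⟨z, hz, rfl⟩) (hjj z hz)⟩
    obtain ⟨J, hJ⟩ := hJ
    have h3 := (hS (Nat.pair i J)).new
    rw [Nat.unpair_pair] at h3
    have h5 : i ≤ Nat.pair i J := Nat.left_le_pair i J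
    have h6 : J ≤ Nat.pair i J := Nat.right_le_pair i J
    obtain ⟨z, k1, k2, k3⟩ := h3 (by show i < _; omega)
    refine k2 (eP _ _ h6 (hJ z ⟨?_, _, k1⟩))
    rw [eN i (Nat.pair i J + 1) (by omega)]
    exact k3
  · obtain ⟨j, rfl⟩ := hez e
    obtain ⟨i, hi, t, h1⟩ := (hS j).ab he
    refine ⟨i, t, ?_⟩
    show _ ∈ Ns (i + 1) i
    rw [eN i (j + 1) hi]
    exact h1

theorem exists_fl (hp : Om p) (F : Good p f) (G : Good p g) {y y' : ℕ → Z}
    {R : ℕ → ℕ → Prop} (Y : Reps p f y R) (Y' : Reps p g y' R) :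
    ∃ (N N' : ℕ → Set Z) (τ : ℕ → ℕ), Fl f y R N τ ∧ Fl g y' R N' τ := by
  have : Nonempty Z := ⟨p⟩
  obtain ⟨ez, hez⟩ := exists_surjective_nat Z
  let S : Type := (ℕ → Set Z) × Set Z × (ℕ → Set Z) × Set Z × (ℕ → ℕ)
  let VV : ℕ → S → Prop := fun j s => Vd f y R j s.1 s.2.1 s.2.2.2.2 ∧
    Vd g y' R j s.2.2.1 s.2.2.2.1 s.2.2.2.2
  have h0 : VV 0 (fun _ => ∅, ∅, fun _ => ∅, ∅, fun _ => 0) := by
    constructor <;>
      exact ⟨fun i hi => by omega, fun i hi => by omega, fun i hi => by omega,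
        fun i hi => by omega, fun i hi => by omega, fun i hi => by omega, fun i hi => by omega,
        fun i hi => by omega, finite_empty, fun z hz => hz.elim, fun z hz => hz.elim,
        fun z hz => hz.elim⟩
  have hst : ∀ (j : ℕ) (s : {s : S // VV j s}), ∃ s' : {s : S // VV (j + 1) s},
      StR f j (ez j) s.1.1 s.1.2.1 s'.1.1 s'.1.2.1 ∧
      StR g j (ez j) s.1.2.2.1 s.1.2.2.2.1 s'.1.2.2.1 s'.1.2.2.2.1 ∧
      ∀ i, i ≠ j → s'.1.2.2.2.2 i = s.1.2.2.2.2 i := by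
    rintro j ⟨⟨N, P, N', P', τ⟩, H, H'⟩
    obtain ⟨b, hb⟩ := step hp F Y H (ez j) (Nat.unpair j).1
    obtain ⟨b', hb'⟩ := step hp G Y' H' (ez j) (Nat.unpair j).1
    obtain ⟨A, Q, k1, k2, k3, k4⟩ := hb (max b b') (le_max_left _ _)
    obtain ⟨A', Q', l1, l2, l3, l4⟩ := hb' (max b b') (le_max_right _ _)
    exact ⟨⟨(Function.update N j A, Q, Function.update N' j A', Q',
      Function.update τ j (max b b')), k1, l1⟩,
      ⟨fun i hi => Function.update_of_ne hi _ _, k2, k3, k4⟩,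
      ⟨fun i hi => Function.update_of_ne hi _ _, l2, l3, l4⟩,
      fun i hi => Function.update_of_ne hi _ _⟩
  choose nxt hn using hst
  let sq : ∀ j, {s : S // VV j s} := fun j => Nat.rec ⟨_, h0⟩ (fun j s => nxt j s) j
  have hq : ∀ j, _ := fun j => hn j (sq j)
  refine ⟨_, _, _, fl_of hez (Ns := fun j => (sq j).1.1) (Ps := fun j => (sq j).1.2.1)
    (τs := fun j => (sq j).1.2.2.2.2) (fun j => (sq j).2.1) (fun j => (hq j).1)
    (fun j => (hq j).2.2), fl_of hez (Ns := fun j => (sq j).1.2.2.1)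
    (Ps := fun j => (sq j).1.2.2.2.1) (τs := fun j => (sq j).1.2.2.2.2) (fun j => (sq j).2.2)
    (fun j => (hq j).2.1) (fun j => (hq j).2.2)⟩

end

end Pool.Agent.H642.CK
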