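import Pool.Agent.H642.CH.Model

set_option autoImplicit false

/-! Isolated points and points isolated among the limit points. -/

namespace Pool.Agent.H642.CK

open Set
open Pool.Agent.H642.CH (it it_zero it_one it_add it_neg it_neg' it_cont)

section basic

variable {Z : Type} [TopologicalSpace Z]

/-- isolated points -/
def Io (x : Z) : Prop := IsOpen ({x} : Set Z)

theorem io_map {W : Type} [TopologicalSpace W] (h : Z ≃ₜ W) (x : Z) : Io (h x) ↔ Io x := by
  unfold Io
  rw [← image_singleton, h.isOpen_image]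

theorem io_it (f : Z ≃ₜ Z) (k : ℤ) (x : Z) : Io (it f k x) ↔ Io x := io_map (f ^ k) x

theorem it_inj (f : Z ≃ₜ Z) (k : ℤ) {x y : Z} (h : it f k x = it f k y) : x = y :=
  (f ^ k).injective h

theorem it_eq (f : Z ≃ₜ Z) (k : ℤ) {x y : Z} : it f k x = y ↔ x = it f (-k) y := by
  constructor
  · rintro rfl
    rw [it_neg]
  · rintro rfl
    rw [it_neg']

theorem it_it (f : Z ≃ₜ Z) (a b : ℤ) (x : Z) : it f a (it f b x) = it f (a + b) x :=
  (it_add f a b x).symm

theorem fin_io [CompactSpace Z] {A : Set Z} (hA : IsClosed A) (h : ∀ x ∈ A, Io x) :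
    A.Finite := by
  obtain ⟨t, h1⟩ := hA.isCompact.elim_finite_subcover (fun x : A => ({x.1} : Set Z))
    (fun x => h x.1 x.2) (fun x hx => mem_iUnion.2 ⟨⟨x, hx⟩, rfl⟩)
  refine (t.finite_toSet.image (fun x : A => x.1)).subset fun x hx => ?_
  have h2 := h1 hx
  simp only [mem_iUnion] at h2
  obtain ⟨y, hy, h3⟩ := h2
  exact ⟨y, hy, (mem_singleton_iff.1 h3).symm⟩

theorem clopen_fin [T1Space Z] {F : Set Z} (hF : F.Finite) (hi : ∀ x ∈ F, Io x) :
    IsClopen F := by
  refine ⟨hF.isClosed, ?_⟩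
  have : F = ⋃ x : F, ({x.1} : Set Z) := by
    ext x
    simp
  rw [this]
  exact isOpen_iUnion fun x => hi x.1 x.2

/-- `A` is clopen with the only limit point `y` -/
structure Nb (A : Set Z) (y : Z) : Prop where
  cl : IsClopen A
  mem : y ∈ A
  lim : ¬ Io y
  uni : ∀ x ∈ A, ¬ Io x → x = y

namespace Nb

variable {A B : Set Z} {y y' : Z}

theorem uniq (h : Nb A y) (h' : Nb A y') : y = y' := h'.uni y h.mem h.lim

theorem notMem (h : Nb A y) (hy : ¬ Io y') (hne : y' ≠ y) : y' ∉ A :=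
  fun h1 => hne (h.uni y' h1 hy)

theorem pass [CompactSpace Z] (h : Nb A y) (h' : Nb B y') {f : Z ≃ₜ Z} {k : ℤ}
    (hk : it f k y ≠ y') : {x | x ∈ A ∧ it f k x ∈ B}.Finite := by
  refine fin_io (h.cl.inter (h'.cl.preimage (it_cont f k))).isClosed fun x hx => ?_
  by_contra hcon
  have h1 := h.uni x hx.1 hcon
  subst h1
  exact hk (h'.uni _ hx.2 (fun h2 => hcon ((io_it f k x).1 h2)))

theorem diff [CompactSpace Z] (h : Nb A y) (h' : Nb B y) : (A \ B).Finite := by
  refine fin_io (h.cl.diff h'.cl).isClosed fun x hx => ?_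
  by_contra hcon
  have h1 := h.uni x hx.1 hcon
  subst h1
  exact hx.2 h'.mem

theorem diff_io (h : Nb A y) (h' : Nb B y) {x : Z} (hx : x ∈ A) (hx' : x ∉ B) : Io x := by
  by_contra hcon
  have h1 := h.uni x hx hcon
  subst h1
  exact hx' h'.mem

theorem sdiff [T1Space Z] (h : Nb A y) {F : Set Z} (hF : F.Finite) (hi : ∀ x ∈ F, Io x) :
    Nb (A \ F) y where
  cl := h.cl.diff (clopen_fin hF hi)
  mem := ⟨h.mem, fun h1 => h.lim (hi _ h1)⟩
  lim := h.lim
  uni := fun x hx => h.uni x hx.1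

theorem union [T1Space Z] (h : Nb A y) {F : Set Z} (hF : F.Finite) (hi : ∀ x ∈ F, Io x) :
    Nb (A ∪ F) y where
  cl := h.cl.union (clopen_fin hF hi)
  mem := Or.inl h.mem
  lim := h.lim
  uni := fun x hx hn => by
    rcases hx with hx | hx
    · exact h.uni x hx hn
    · exact (hn (hi x hx)).elim

theorem map {W : Type} [TopologicalSpace W] (h : Nb A y) (g : Z ≃ₜ W) : Nb (g '' A) (g y) where
  cl := by
    refine ⟨(g.isClosed_image).2 h.cl.isClosed, (g.isOpen_image).2 h.cl.isOpen⟩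
  mem := ⟨y, h.mem, rfl⟩
  lim := fun h1 => h.lim ((io_map g y).1 h1)
  uni := by
    rintro _ ⟨x, hx, rfl⟩ h1
    rw [h.uni x hx fun h2 => h1 ((io_map g x).2 h2)]

theorem shift (h : Nb A y) (f : Z ≃ₜ Z) (k : ℤ) : Nb {x | it f (-k) x ∈ A} (it f k y) where
  cl := h.cl.preimage (it_cont f _)
  mem := by
    show it f (-k) (it f k y) ∈ A
    rw [it_neg]
    exact h.mem
  lim := fun h1 => h.lim ((io_it f k y).1 h1)
  uni := fun x hx hn => by
    rw [← h.uni _ hx (fun h1 => hn ((io_it f (-k) x).1 h1)), it_neg']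

end Nb

/-- compact sets of isolated points and points isolated among limit points -/
theorem cover [CompactSpace Z] {ι : Type} {N : ι → Set Z} {C : Set Z} (hC : IsClosed C)
    (hN : ∀ i, IsOpen (N i)) (h : ∀ x ∈ C, Io x ∨ ∃ i, x ∈ N i) :
    ∃ s : Finset ι, (C \ ⋃ i ∈ s, N i).Finite ∧ ∀ x ∈ C \ ⋃ i ∈ s, N i, Io x := by
  classical
  let O : Z ⊕ ι → Set Z := fun a => match a with
    | .inl x => {z | z = x ∧ Io x}
    | .inr i => N i
  have hO : ∀ a, IsOpen (O a) := by
    rintro (x | i)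
    · by_cases hx : Io x
      · have : O (.inl x) = {x} := by
          ext z
          show (z = x ∧ Io x) ↔ z = x
          exact ⟨fun h => h.1, fun h => ⟨h, hx⟩⟩
        rw [this]
        exact hx
      · have : O (.inl x) = ∅ := by
          ext z
          show (z = x ∧ Io x) ↔ False
          exact ⟨fun h => hx h.2, fun h => h.elim⟩
        rw [this]
        exact isOpen_empty
    · exact hN i
  obtain ⟨t, ht⟩ := hC.isCompact.elim_finite_subcover O hO (fun x hx => by
    rcases h x hx with h1 | ⟨i, h1⟩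
    · exact mem_iUnion.2 ⟨.inl x, rfl, h1⟩
    · exact mem_iUnion.2 ⟨.inr i, h1⟩)
  have key : ∀ x ∈ C \ ⋃ i ∈ t.toRight, N i, Io x ∧ x ∈ t.toLeft := by
    rintro x ⟨hx, hx'⟩
    have h2 := ht hx
    simp only [mem_iUnion] at h2
    obtain ⟨a, ha, h3⟩ := h2
    rcases a with z | i
    · obtain ⟨rfl, h4⟩ := h3
      exact ⟨h4, Finset.mem_toLeft.2 ha⟩
    · exact (hx' (mem_iUnion₂.2 ⟨i, Finset.mem_toRight.2 ha, h3⟩)).elim
  exact ⟨t.toRight, t.toLeft.finite_toSet.subset fun x hx => (key x hx).2,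
    fun x hx => (key x hx).1⟩

end basic

end Pool.Agent.H642.CK
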